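import Mathlib

/-!
# Betrothed pairs of equal parity: squares and twice squares
-/

set_option autoImplicit false

open Finset ArithmeticFunction

namespace Pool.Agent.H88.Bet

open scoped ArithmeticFunction.sigma

/-- `(m, n)` is a betrothed pair -/
def Betrothed (m n : ℕ) : Prop :=
  0 < m ∧ 0 < n ∧ σ 1 m = m + n + 1 ∧ σ 1 n = m + n + 1

theorem even_sigma_of_odd_not_sq {u : ℕ} (hu : Odd u) (hs : ¬ IsSquare u) : Even (σ 1 u) := by
  have hu0 : u ≠ 0 := hu.pos.ne'
  rw [sigma_one_apply]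
  have h1 : ∑ d ∈ u.divisors, (d : ZMod 2) = 0 := by
    refine Finset.sum_involution (fun d _ => u / d) ?_ ?_ ?_ ?_
    · intro d hd
      have hdvd := Nat.dvd_of_mem_divisors hd
      have hdo : Odd d := hu.of_dvd_nat hdvd
      have hdo' : Odd (u / d) := hu.of_dvd_nat (Nat.div_dvd_of_dvd hdvd)
      have e1 : (d : ZMod 2) = 1 := ZMod.natCast_eq_one_iff_odd.2 hdo
      have e2 : ((u / d : ℕ) : ZMod 2) = 1 := ZMod.natCast_eq_one_iff_odd.2 hdo'
      rw [e1, e2]
      decide
    · intro d hd _ heq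
      have hdvd := Nat.dvd_of_mem_divisors hd
      refine hs ⟨d, ?_⟩
      have := Nat.div_mul_cancel hdvd
      rw [heq] at this
      exact this.symm
    · intro d hd
      have hdvd := Nat.dvd_of_mem_divisors hd
      exact Nat.mem_divisors.2 ⟨Nat.div_dvd_of_dvd hdvd, hu0⟩
    · intro d hd
      have hdvd := Nat.dvd_of_mem_divisors hd
      exact Nat.div_div_self hdvd hu0
  have h2 : ((∑ d ∈ u.divisors, d : ℕ) : ZMod 2) = 0 := by
    push_cast
    exact h1
  exact (ZMod.natCast_eq_zero_iff_even).1 h2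

/-- an odd value of `σ` forces a square or twice a square -/
theorem sq_of_odd_sigma {m : ℕ} (hm : 0 < m) (h : Odd (σ 1 m)) :
    ∃ e a : ℕ, (e = 1 ∨ e = 2) ∧ 0 < a ∧ m = e * a ^ 2 := by
  obtain ⟨k, u, hu, rfl⟩ := Nat.exists_eq_two_pow_mul_odd hm.ne'
  have hcop : Nat.Coprime (2 ^ k) u := (Nat.coprime_two_left.2 hu).pow_left k
  rw [isMultiplicative_sigma.map_mul_of_coprime hcop, Nat.odd_mul] at h
  have hs : IsSquare u := by
    by_contra hcon
    exact Nat.not_even_iff_odd.2 h.2 (even_sigma_of_odd_not_sq hu hcon)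
  obtain ⟨b, hb⟩ := hs
  have hb0 : 0 < b := by
    rcases Nat.eq_zero_or_pos b with h0 | h0
    · subst h0
      simp at hb
      subst hb
      simp at hu
    · exact h0
  obtain ⟨c, hc⟩ := Nat.even_or_odd' k
  rcases hc with hc | hc
  · refine ⟨1, 2 ^ c * b, Or.inl rfl, by positivity, ?_⟩
    rw [hb, hc]
    ring
  · refine ⟨2, 2 ^ c * b, Or.inr rfl, by positivity, ?_⟩
    rw [hb, hc]
    ring

theorem sq_of_betrothed {m n : ℕ} (h : Betrothed m n) (hp : Even m ↔ Even n) :
    (∃ e a : ℕ, (e = 1 ∨ e = 2) ∧ 0 < a ∧ m = e * a ^ 2) ∧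
      (∃ e a : ℕ, (e = 1 ∨ e = 2) ∧ 0 < a ∧ n = e * a ^ 2) := by
  obtain ⟨hm, hn, h1, h2⟩ := h
  have hodd : Odd (m + n + 1) := (Nat.even_add.2 hp).add_one
  exact ⟨sq_of_odd_sigma hm (h1 ▸ hodd), sq_of_odd_sigma hn (h2 ▸ hodd)⟩

/-- `σ(e k²)` is odd for `e = 1, 2` -/
theorem odd_sigma_sq {e k : ℕ} (he : e = 1 ∨ e = 2) (hk : 0 < k) : Odd (σ 1 (e * k ^ 2)) := by
  obtain ⟨j, u, hu, rfl⟩ := Nat.exists_eq_two_pow_mul_odd hk.ne'
  have key : ∀ i : ℕ, Odd (σ 1 (2 ^ i * u ^ 2)) := by
    intro i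
    have hcop : Nat.Coprime (2 ^ i) (u ^ 2) := ((Nat.coprime_two_left.2 hu).pow_left i).pow_right 2
    rw [isMultiplicative_sigma.map_mul_of_coprime hcop, Nat.odd_mul]
    constructor
    · rw [sigma_one_apply_prime_pow Nat.prime_two]
      rw [Finset.sum_range_succ']
      simp only [pow_zero]
      refine Even.add_one ?_
      refine Finset.even_sum _ (fun t _ => ?_)
      exact (Nat.even_pow.2 ⟨even_two, by omega⟩)
    · -- number of divisors of a square is odd
      rw [sigma_one_apply]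
      have h1 : ((∑ d ∈ (u ^ 2).divisors, d : ℕ) : ZMod 2) = 1 := by
        push_cast
        have hu0 : u ≠ 0 := hu.pos.ne'
        have hmem : u ∈ (u ^ 2).divisors := Nat.mem_divisors.2 ⟨dvd_pow_self u two_ne_zero, by positivity⟩
        rw [← Finset.add_sum_erase _ _ hmem]
        have h2 : ∑ d ∈ (u ^ 2).divisors.erase u, (d : ZMod 2) = 0 := by
          refine Finset.sum_involution (fun d _ => u ^ 2 / d) ?_ ?_ ?_ ?_
          · intro d hd
            have hdvd := Nat.dvd_of_mem_divisors (Finset.mem_of_mem_erase hd)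
            have hdo : Odd d := (hu.pow).of_dvd_nat hdvd
            have hdo' : Odd (u ^ 2 / d) := (hu.pow).of_dvd_nat (Nat.div_dvd_of_dvd hdvd)
            have e1 : (d : ZMod 2) = 1 := ZMod.natCast_eq_one_iff_odd.2 hdo
            have e2 : ((u ^ 2 / d : ℕ) : ZMod 2) = 1 := ZMod.natCast_eq_one_iff_odd.2 hdo'
            rw [e1, e2]
            decide
          · intro d hd _ heq
            have hdvd := Nat.dvd_of_mem_divisors (Finset.mem_of_mem_erase hd)
            have hne := Finset.ne_of_mem_erase hd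
            have h3 := Nat.div_mul_cancel hdvd
            rw [heq] at h3
            apply hne
            nlinarith [Nat.pow_left_injective (n := 2) (by norm_num) (show d ^ 2 = u ^ 2 by rw [← h3]; ring)]
          · intro d hd
            have hdvd := Nat.dvd_of_mem_divisors (Finset.mem_of_mem_erase hd)
            have hne := Finset.ne_of_mem_erase hd
            refine Finset.mem_erase.2 ⟨?_, Nat.mem_divisors.2 ⟨Nat.div_dvd_of_dvd hdvd, by positivity⟩⟩
            intro heq
            apply hne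
            have h3 := Nat.mul_div_cancel' hdvd
            rw [heq] at h3
            have : u * d = u * u := by nlinarith
            exact Nat.eq_of_mul_eq_mul_left hu.pos this
          · intro d hd
            have hdvd := Nat.dvd_of_mem_divisors (Finset.mem_of_mem_erase hd)
            exact Nat.div_div_self hdvd (by positivity)
        rw [h2, add_zero]
        exact ZMod.natCast_eq_one_iff_odd.2 hu
      exact ZMod.natCast_eq_one_iff_odd.1 h1
  have e1 : (2 ^ j * u) ^ 2 = 2 ^ (2 * j) * u ^ 2 := by ring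
  rcases he with rfl | rfl
  · rw [one_mul, e1]
    exact key _
  · have e2 : 2 * (2 ^ j * u) ^ 2 = 2 ^ (2 * j + 1) * u ^ 2 := by ring
    rw [e2]
    exact key _

/-- `σ(e p² k²) = (p² + p + 1) σ(e k²)` -/
theorem sigma_mul_prime {e k p : ℕ} (he : e = 1 ∨ e = 2) (hp : p.Prime) (hp2 : 2 < p)
    (hpk : ¬ p ∣ k) : σ 1 (e * (p * k) ^ 2) = (p ^ 2 + p + 1) * σ 1 (e * k ^ 2) := by
  have hcop : Nat.Coprime (p ^ 2) (e * k ^ 2) := by
    refine Nat.Coprime.pow_left 2 ?_
    rw [Nat.Prime.coprime_iff_not_dvd hp]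
    intro h
    rcases (Nat.Prime.dvd_mul hp).1 h with h | h
    · rcases he with rfl | rfl
      · exact hp.one_lt.ne' (Nat.dvd_one.1 h)
      · exact absurd (Nat.le_of_dvd (by norm_num) h) (by omega)
    · exact hpk (hp.dvd_of_dvd_pow h)
  have e1 : e * (p * k) ^ 2 = p ^ 2 * (e * k ^ 2) := by ring
  rw [e1, isMultiplicative_sigma.map_mul_of_coprime hcop, sigma_one_apply_prime_pow hp]
  congr 1
  simp [Finset.sum_range_succ]
  ring

end Pool.Agent.H88.Bet
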