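import Pool.Agent.H88.Bet.Larger
import Pool.Agent.CoprimeSieve.Mertens

/-!
# Few values of the variable with `δ b² = A p² + T p + B`
-/

set_option autoImplicit false

open Finset Pool.Agent.CoprimeSieve

namespace Pool.Agent.H88.Bet

theorem mem_pr {x : ℝ} (hx : 0 ≤ x) {p : ℕ} : p ∈ pr x ↔ p.Prime ∧ (p : ℝ) ≤ x := by
  unfold pr
  rw [mem_filter, mem_Icc, Nat.le_floor_iff hx]
  constructor
  · rintro ⟨⟨_, h2⟩, h3⟩
    exact ⟨h3, h2⟩
  · rintro ⟨h1, h2⟩
    exact ⟨⟨h1.one_lt.le, h2⟩, h1⟩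

theorem sum_log_pr_le {x : ℝ} (hx : 0 ≤ x) : ∑ p ∈ pr x, Real.log p ≤ 2 * x := by
  have h1 := Chebyshev.theta_le_log4_mul_x hx
  rw [Chebyshev.theta_eq_sum_Icc] at h1
  have h2 : ∑ p ∈ pr x, Real.log (p : ℝ) = ∑ p ∈ (Icc 0 ⌊x⌋₊).filter Nat.Prime, Real.log (p : ℝ) := by
    refine sum_congr ?_ (fun _ _ => rfl)
    ext p
    unfold pr
    rw [mem_filter, mem_filter, mem_Icc, mem_Icc]
    constructor
    · rintro ⟨⟨_, h2⟩, h3⟩
      exact ⟨⟨Nat.zero_le _, h2⟩, h3⟩
    · rintro ⟨⟨_, h2⟩, h3⟩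
      exact ⟨⟨h3.one_lt.le, h2⟩, h3⟩
  rw [h2]
  refine le_trans h1 ?_
  have h3 : Real.log 4 ≤ 2 := by
    rw [show (4 : ℝ) = 2 ^ 2 by norm_num, Real.log_pow]
    have := Real.log_two_lt_d9
    push_cast
    linarith
  exact mul_le_mul_of_nonneg_right h3 hx

theorem count_p : ∃ C : ℝ, 0 < C ∧ ∀ (W : ℝ) (P A T B δ D : ℕ) (Di : ℤ), 12 ≤ W → 1 ≤ P →
    Real.log P ≤ W → (δ = 1 ∨ δ = 2) → 0 < A → Di = (T : ℤ) ^ 2 - 4 * A * B → Di.natAbs = D →
    D ≠ 0 → Real.log ((A * D : ℕ) : ℝ) ≤ W → ∀ S : Finset ℕ, S ⊆ Ioc P (2 * P) →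
    (∀ p ∈ S, ∃ b : ℕ, δ * b ^ 2 = A * p ^ 2 + T * p + B) →
    (S.card : ℝ) ≤ C * W * Real.sqrt P := by
  obtain ⟨C0, hC0, hM⟩ := mertens_first
  refine ⟨2 * Real.exp (2 * C0 + 8), by positivity, ?_⟩
  intro W P A T B δ D Di hW hP hPW hδ hA hDi hD hD0 hAD S hSP hSb
  have hPr : (1 : ℝ) ≤ P := by exact_mod_cast hP
  have hsP : (1 : ℝ) ≤ Real.sqrt P := Real.one_le_sqrt.2 hPr
  have hlogP : 0 ≤ Real.log P := Real.log_nonneg hPr
  set Z : ℝ := Real.exp (2 * C0 + 8) * W * Real.sqrt P with hZ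
  have hE1 : 1 ≤ Real.exp (2 * C0 + 8) := Real.one_le_exp (by linarith)
  have hZW : W ≤ Z := by
    rw [hZ]
    calc W = 1 * W * 1 := by ring
      _ ≤ Real.exp (2 * C0 + 8) * W * Real.sqrt P := by gcongr
  have hZ0 : 0 < Z := by linarith
  have hlogZ : Real.log Z = (2 * C0 + 8) + Real.log W + (1 / 2) * Real.log P := by
    rw [hZ, Real.log_mul (by positivity) (by positivity), Real.log_mul (by positivity) (by linarith),
      Real.log_exp, Real.log_sqrt (by positivity)]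
    ring
  have hAD0 : A * D ≠ 0 := by positivity
  set L := (pr Z).filter (fun l : ℕ => W < l ∧ ¬ l ∣ A * D) with hL
  have hLp : ∀ l ∈ L, l.Prime := fun l hl => ((mem_pr hZ0.le).1 (mem_filter.1 hl).1).1
  have hLW : ∀ l ∈ L, W < l := fun l hl => (mem_filter.1 hl).2.1
  -- images
  have himg : ∀ l ∈ L, ((S.image (fun a : ℕ => (a : ZMod l))).card : ℝ) ≤ ((l : ℝ) + 6) / 2 := by
    intro l hl
    have hlp := hLp l hl
    have : Fact l.Prime := ⟨hlp⟩
    have hlW := hLW l hl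
    have hl12 : 12 < l := by
      have : (12 : ℝ) < l := by linarith
      exact_mod_cast this
    have hnd := (mem_filter.1 hl).2.2
    have hAl : (A : ZMod l) ≠ 0 := by
      rw [Ne, ZMod.natCast_eq_zero_iff]
      exact fun h => hnd (h.mul_right D)
    have hDl : ((T : ZMod l)) ^ 2 - 4 * A * B ≠ 0 := by
      have e1 : ((T : ZMod l)) ^ 2 - 4 * A * B = ((Di : ℤ) : ZMod l) := by
        rw [hDi]
        push_cast
        ring
      rw [e1, Ne, ZMod.intCast_zmod_eq_zero_iff_dvd]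
      intro h
      apply hnd
      have h2 : l ∣ D := by
        rw [← hD]
        exact Int.natCast_dvd.1 h
      exact h2.mul_left A
    have hδl : (δ : ZMod l) ≠ 0 := by
      rw [Ne, ZMod.natCast_eq_zero_iff]
      intro h
      have := Nat.le_of_dvd (by omega) h
      omega
    have h1 := conic_image (l := l) (by omega) (δ : ZMod l) A T B hδl hAl hDl
    have h2 : S.image (fun a : ℕ => (a : ZMod l)) ⊆
        univ.filter (fun r : ZMod l => ∃ s, (δ : ZMod l) * s ^ 2 = A * r ^ 2 + T * r + B) := by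
      intro r hr
      obtain ⟨p, hp, rfl⟩ := mem_image.1 hr
      obtain ⟨b, hb⟩ := hSb p hp
      refine mem_filter.2 ⟨mem_univ _, (b : ZMod l), ?_⟩
      exact_mod_cast congrArg (fun n : ℕ => (n : ZMod l)) hb
    have h3 := card_le_card h2
    have h4 : 2 * (S.image (fun a : ℕ => (a : ZMod l))).card ≤ l + 6 := by omega
    have h5 : (2 : ℝ) * (S.image (fun a : ℕ => (a : ZMod l))).card ≤ l + 6 := by exact_mod_cast h4
    linarith
  have hls := larger_sieve S L hLp (fun l => ((l : ℝ) + 6) / 2) (fun l hl => by positivity) himg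
    (P : ℝ) hPr (by
      intro a ha b hb hab
      have h1 := mem_Ioc.1 (hSP ha)
      have h2 := mem_Ioc.1 (hSP hb)
      have : b - a ≤ P := by omega
      exact_mod_cast this)
  -- lower bound for the sum over `L`
  have hsumL : Real.log Z - Real.log W - 2 * C0 - 1 ≤ ∑ l ∈ L, Real.log l / l := by
    have h1 := (abs_le.1 (hM Z (by linarith))).1
    have h2 := (abs_le.1 (hM W (by linarith))).2
    have h3 : mE Z = ∑ l ∈ L, Real.log (l : ℝ) / l +
        ∑ l ∈ (pr Z).filter (fun l : ℕ => ¬ (W < l ∧ ¬ l ∣ A * D)), Real.log (l : ℝ) / l := by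
      unfold mE
      rw [hL, sum_filter_add_sum_filter_not]
    have h4 : ∑ l ∈ (pr Z).filter (fun l : ℕ => ¬ (W < l ∧ ¬ l ∣ A * D)), Real.log (l : ℝ) / l ≤
        mE W + ∑ l ∈ (pr Z).filter (fun l : ℕ => W < l ∧ l ∣ A * D), Real.log (l : ℝ) / l := by
      have hW0 : (0 : ℝ) ≤ W := by linarith
      have e1 : (pr Z).filter (fun l : ℕ => ¬ (W < l ∧ ¬ l ∣ A * D)) ⊆
          pr W ∪ (pr Z).filter (fun l : ℕ => W < l ∧ l ∣ A * D) := by
        intro l hl
        obtain ⟨hl1, hl2⟩ := mem_filter.1 hl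
        obtain ⟨hlp, _⟩ := (mem_pr hZ0.le).1 hl1
        rw [mem_union]
        by_cases hlW : W < l
        · right
          refine mem_filter.2 ⟨hl1, hlW, ?_⟩
          by_contra hcon
          exact hl2 ⟨hlW, hcon⟩
        · left
          exact (mem_pr hW0).2 ⟨hlp, not_lt.1 hlW⟩
      have hnn : ∀ l ∈ pr W ∪ (pr Z).filter (fun l : ℕ => W < l ∧ l ∣ A * D),
          0 ≤ Real.log (l : ℝ) / l := by
        intro l _
        rcases Nat.eq_zero_or_pos l with h0 | h0
        · subst h0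
          simp
        · exact div_nonneg (Real.log_nonneg (by exact_mod_cast h0)) (by positivity)
      refine le_trans (sum_le_sum_of_subset_of_nonneg e1 (fun l hl _ => hnn l hl)) ?_
      have e2 := Finset.sum_union_inter (s₁ := pr W)
        (s₂ := (pr Z).filter (fun l : ℕ => W < l ∧ l ∣ A * D)) (f := fun l : ℕ => Real.log (l : ℝ) / l)
      have e3 : 0 ≤ ∑ l ∈ pr W ∩ (pr Z).filter (fun l : ℕ => W < l ∧ l ∣ A * D),
          Real.log (l : ℝ) / l :=
        sum_nonneg (fun l hl => hnn l (mem_union_left _ (mem_inter.1 hl).1))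
      unfold mE
      linarith
    have h5 : ∑ l ∈ (pr Z).filter (fun l : ℕ => W < l ∧ l ∣ A * D), Real.log (l : ℝ) / l ≤ 1 := by
      have e1 : ∑ l ∈ (pr Z).filter (fun l : ℕ => W < l ∧ l ∣ A * D), Real.log (l : ℝ) / l ≤
          ∑ l ∈ (pr Z).filter (fun l : ℕ => W < l ∧ l ∣ A * D), Real.log (l : ℝ) / W := by
        refine sum_le_sum (fun l hl => ?_)
        obtain ⟨hl1, hl2, _⟩ := mem_filter.1 hl
        obtain ⟨hlp, _⟩ := (mem_pr hZ0.le).1 hl1
        have : 0 ≤ Real.log (l : ℝ) := Real.log_nonneg (by exact_mod_cast hlp.one_lt.le)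
        gcongr
      refine le_trans e1 ?_
      rw [← sum_div, div_le_one (by linarith)]
      refine le_trans ?_ hAD
      have e2 := sum_log_dvd_le (pr Z) (fun l hl => ((mem_pr hZ0.le).1 hl).1) hAD0
      refine le_trans ?_ e2
      refine sum_le_sum_of_subset_of_nonneg ?_ ?_
      · intro l hl
        obtain ⟨hl1, hl2, hl3⟩ := mem_filter.1 hl
        exact mem_filter.2 ⟨hl1, hl3⟩
      · intro l hl _
        obtain ⟨hl1, _⟩ := mem_filter.1 hl
        exact Real.log_nonneg (by exact_mod_cast ((mem_pr hZ0.le).1 hl1).1.one_lt.le)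
    linarith
  have hsumν : Real.log P + 1 ≤ ∑ l ∈ L, Real.log l / (((l : ℝ) + 6) / 2) := by
    have h1 : 2 * (1 - 6 / W) * ∑ l ∈ L, Real.log (l : ℝ) / l ≤
        ∑ l ∈ L, Real.log l / (((l : ℝ) + 6) / 2) := by
      rw [mul_sum]
      refine sum_le_sum (fun l hl => ?_)
      have hl1 := hLW l hl
      have hl0 : (0 : ℝ) < l := by linarith
      have hlog : 0 ≤ Real.log (l : ℝ) := Real.log_nonneg (by linarith)
      have e1 : Real.log (l : ℝ) / (((l : ℝ) + 6) / 2) = 2 * (l / (l + 6)) * (Real.log l / l) := by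
        field_simp
      rw [e1]
      have e2 : 1 - 6 / W ≤ (l : ℝ) / (l + 6) := by
        rw [le_div_iff₀ (by positivity)]
        have e3 : 6 / W * W = 6 := by field_simp
        have e4 : 6 / W * l ≥ 6 := by
          calc 6 / W * l ≥ 6 / W * W := by gcongr
            _ = 6 := e3
        have e5 : 0 ≤ 6 / W := by positivity
        nlinarith
      have e6 : 0 ≤ Real.log (l : ℝ) / l := by positivity
      nlinarith
    refine le_trans ?_ h1
    have h2 : (1 / 2) * Real.log P + 7 ≤ ∑ l ∈ L, Real.log (l : ℝ) / l := by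
      refine le_trans (le_of_eq ?_) hsumL
      rw [hlogZ]
      ring
    have h3 : 6 / W ≤ 1 / 2 := by
      rw [div_le_iff₀ (by linarith)]
      linarith
    have h4 : 0 ≤ 6 / W := by positivity
    have h5 : 6 / W * Real.log P ≤ 6 := by
      calc 6 / W * Real.log P ≤ 6 / W * W := by gcongr
        _ = 6 := by field_simp
    calc Real.log P + 1 ≤ 2 * (1 - 6 / W) * ((1 / 2) * Real.log P + 7) := by nlinarith
      _ ≤ _ := mul_le_mul_of_nonneg_left h2 (by linarith)
  have hfin : (S.card : ℝ) ≤ ∑ l ∈ L, Real.log (l : ℝ) := by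
    have h1 : (S.card : ℝ) * 1 ≤ (S.card : ℝ) *
        (∑ l ∈ L, Real.log l / (((l : ℝ) + 6) / 2) - Real.log P) :=
      mul_le_mul_of_nonneg_left (by linarith) (by positivity)
    linarith
  have hlast : ∑ l ∈ L, Real.log (l : ℝ) ≤ 2 * Z := by
    refine le_trans ?_ (sum_log_pr_le hZ0.le)
    refine sum_le_sum_of_subset_of_nonneg (filter_subset _ _) (fun l hl _ => ?_)
    exact Real.log_nonneg (by exact_mod_cast ((mem_pr hZ0.le).1 hl).1.one_lt.le)
  calc (S.card : ℝ) ≤ 2 * Z := le_trans hfin hlast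
    _ = 2 * Real.exp (2 * C0 + 8) * W * Real.sqrt P := by rw [hZ]; ring

end Pool.Agent.H88.Bet
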