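import Pool.Agent.H88.Bet.Basic
import Pool.Agent.H88.Bet.CountP

/-!
# Members of betrothed pairs of equal parity with a large prime factor
-/

set_option autoImplicit false

open Finset ArithmeticFunction

namespace Pool.Agent.H88.Bet

open scoped ArithmeticFunction.sigma

/-- `m` is a member of a betrothed pair of equal parity -/
def EqMem (m : ℕ) : Prop := ∃ n, Betrothed m n ∧ (Even m ↔ Even n)

/-- the equation satisfied by a prime `p` exactly dividing `a` -/
theorem eqn {e k p : ℕ} (he : e = 1 ∨ e = 2) (hp : p.Prime) (hp2 : 2 < p)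
    (hpk : ¬ p ∣ k) (h : EqMem (e * (p * k) ^ 2)) :
    ∃ δ b : ℕ, (δ = 1 ∨ δ = 2) ∧ 0 < b ∧
      (p ^ 2 + p + 1) * σ 1 (e * k ^ 2) = e * (p * k) ^ 2 + δ * b ^ 2 + 1 := by
  obtain ⟨n, hb, hpar⟩ := h
  obtain ⟨-, δ, b, hδ, hb0, rfl⟩ := sq_of_betrothed hb hpar
  refine ⟨δ, b, hδ, hb0, ?_⟩
  rw [← sigma_mul_prime he hp hp2 hpk]
  exact hb.2.2.1

theorem le_sigma (n : ℕ) (hn : 0 < n) : n ≤ σ 1 n := by
  rw [sigma_one_apply]
  exact Finset.single_le_sum (f := fun d => d) (fun _ _ => Nat.zero_le _)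
    (Nat.mem_divisors_self n hn.ne')

theorem lt_sigma (n : ℕ) (hn : 1 < n) : n < σ 1 n := by
  rw [sigma_one_apply]
  have h1 : ({1, n} : Finset ℕ) ⊆ n.divisors := by
    intro d hd
    rw [mem_insert, mem_singleton] at hd
    rcases hd with rfl | rfl
    · exact Nat.mem_divisors.2 ⟨one_dvd _, by omega⟩
    · exact Nat.mem_divisors_self _ (by omega)
  have h2 := Finset.sum_le_sum_of_subset (f := fun d => d) h1
  rw [Finset.sum_pair (by omega)] at h2
  omega

/-- the bound for fixed `k` -/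
theorem count_k : ∃ C : ℝ, 0 < C ∧ ∀ (y P e k δ : ℕ), 1 ≤ y → 1 ≤ P → P ≤ y → (e = 1 ∨ e = 2) →
    (δ = 1 ∨ δ = 2) → 0 < k → k ≤ y → ∀ S : Finset ℕ, S ⊆ Ioc P (2 * P) →
    (∀ p ∈ S, p.Prime ∧ 2 < p ∧ ∃ b : ℕ,
      (p ^ 2 + p + 1) * σ 1 (e * k ^ 2) = e * (p * k) ^ 2 + δ * b ^ 2 + 1) →
    (S.card : ℝ) ≤ C * (20 + 12 * Real.log y) * Real.sqrt P := by
  obtain ⟨C, hC, h⟩ := count_p
  refine ⟨C, hC, ?_⟩
  intro y P e k δ hy hP hPy he hδ hk hky S hSP hS
  have hyr : (1 : ℝ) ≤ y := by exact_mod_cast hy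
  have hly : 0 ≤ Real.log y := Real.log_nonneg hyr
  have hek : 0 < e * k ^ 2 := by rcases he with rfl | rfl <;> positivity
  set T := σ 1 (e * k ^ 2) with hT
  have hTo : Odd T := odd_sigma_sq he hk
  have hTge : e * k ^ 2 ≤ T := le_sigma _ hek
  by_cases hek1 : e * k ^ 2 = 1
  · -- `k = 1`, `e = 1`
    have hT1 : T = 1 := by rw [hT, hek1]; simp
    have hk1 : k = 1 := by
      have : k ^ 2 ∣ 1 := ⟨e, by rw [mul_comm]; exact hek1.symm⟩
      have h2 := Nat.dvd_one.1 this
      exact Nat.pow_eq_one.1 h2 |>.resolve_right (by norm_num)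
    have he1 : e = 1 := by
      subst hk1
      simpa using hek1
    have hS0 : S = ∅ := by
      rw [Finset.eq_empty_iff_forall_notMem]
      intro p hp
      obtain ⟨hpp, hp2, b, hb⟩ := hS p hp
      rw [hT1, he1, hk1] at hb
      have hb' : p = δ * b ^ 2 := by nlinarith
      rcases hδ with rfl | rfl
      · rw [one_mul] at hb'
        rw [hb'] at hpp
        exact Nat.Prime.not_prime_pow le_rfl hpp
      · have h2 : 2 ∣ p := ⟨b ^ 2, hb'⟩
        have h3 := (Nat.prime_dvd_prime_iff_eq Nat.prime_two hpp).1 h2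
        omega
    rw [hS0]
    simp only [card_empty, Nat.cast_zero]
    positivity
  · have hTlt : e * k ^ 2 < T := lt_sigma _ (by omega)
    have hT1 : 1 ≤ T := by omega
    obtain ⟨A, hA⟩ : ∃ A, T = e * k ^ 2 + A := ⟨T - e * k ^ 2, by omega⟩
    obtain ⟨B, hB⟩ : ∃ B, T = B + 1 := ⟨T - 1, by omega⟩
    have hA0 : 0 < A := by omega
    -- the discriminant is odd
    have hDo : Odd ((T : ℤ) ^ 2 - 4 * A * B) := by
      have h1 : Odd ((T : ℤ) ^ 2) := by
        have : Odd (T : ℤ) := by exact_mod_cast hTo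
        exact this.pow
      have h2 : Even (4 * (A : ℤ) * B) := by
        refine ⟨2 * A * B, by ring⟩
      exact h1.sub_even h2
    have hD0 : ((T : ℤ) ^ 2 - 4 * A * B).natAbs ≠ 0 := by
      intro h0
      rw [Int.natAbs_eq_zero] at h0
      rw [h0] at hDo
      exact absurd hDo (by decide)
    have hTle : (T : ℝ) ≤ 4 * (y : ℝ) ^ 4 := by
      have h1 := sigma_le_pow_succ 1 (e * k ^ 2)
      have h2 : T ≤ (2 * y ^ 2) ^ 2 := by
        rw [hT]
        refine le_trans h1 ?_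
        have h3 : e * k ^ 2 ≤ 2 * y ^ 2 := by
          refine Nat.mul_le_mul (by omega) (Nat.pow_le_pow_left hky 2)
        exact Nat.pow_le_pow_left h3 2
      have h4 : (T : ℝ) ≤ (2 * (y : ℝ) ^ 2) ^ 2 := by exact_mod_cast h2
      refine le_trans h4 (le_of_eq ?_)
      ring
    have hlogAD : Real.log ((A * ((T : ℤ) ^ 2 - 4 * A * B).natAbs : ℕ) : ℝ) ≤
        20 + 12 * Real.log y := by
      have hT0 : (0 : ℝ) < T := by exact_mod_cast hT1
      have h1 : ((((T : ℤ) ^ 2 - 4 * A * B).natAbs : ℕ) : ℝ) ≤ 5 * (T : ℝ) ^ 2 := by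
        have e1 : ((((T : ℤ) ^ 2 - 4 * A * B).natAbs : ℕ) : ℝ) =
            |(T : ℝ) ^ 2 - 4 * A * B| := by
          rw [← Int.cast_natCast, Int.natCast_natAbs]
          push_cast
          rfl
        rw [e1, abs_le]
        have hAT : (A : ℝ) ≤ T := by exact_mod_cast (by omega : A ≤ T)
        have hBT : (B : ℝ) ≤ T := by exact_mod_cast (by omega : B ≤ T)
        have hA0' : (0 : ℝ) ≤ A := by positivity
        have hB0' : (0 : ℝ) ≤ B := by positivity
        have hABT : (A : ℝ) * B ≤ T * T := mul_le_mul hAT hBT hB0' hT0.le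
        constructor
        · nlinarith
        · have : 0 ≤ (A : ℝ) * B := by positivity
          nlinarith
      have h2 : ((A * ((T : ℤ) ^ 2 - 4 * A * B).natAbs : ℕ) : ℝ) ≤ 320 * (y : ℝ) ^ 12 := by
        push_cast
        have hAT : (A : ℝ) ≤ T := by exact_mod_cast (by omega : A ≤ T)
        have e2 : (((((T : ℤ) ^ 2 - 4 * A * B).natAbs : ℕ) : ℤ) : ℝ) ≤ 5 * (T : ℝ) ^ 2 := by
          exact_mod_cast h1
        calc (A : ℝ) * _ ≤ T * (5 * (T : ℝ) ^ 2) := by
              refine mul_le_mul hAT ?_ (by positivity) hT0.le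
              simpa using h1
          _ = 5 * (T : ℝ) ^ 3 := by ring
          _ ≤ 5 * (4 * (y : ℝ) ^ 4) ^ 3 := by gcongr
          _ = 320 * (y : ℝ) ^ 12 := by ring
      have h3 : Real.log ((A * ((T : ℤ) ^ 2 - 4 * A * B).natAbs : ℕ) : ℝ) ≤
          Real.log (320 * (y : ℝ) ^ 12) := by
        refine Real.log_le_log ?_ h2
        exact_mod_cast Nat.mul_pos hA0 (Nat.pos_of_ne_zero hD0)
      rw [Real.log_mul (by norm_num) (by positivity), Real.log_pow] at h3
      have h4 : Real.log 320 ≤ 20 := by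
        have e3 : (320 : ℝ) ≤ Real.exp 20 := by
          have := Real.add_one_le_exp (10 : ℝ)
          have e4 : Real.exp 20 = Real.exp 10 * Real.exp 10 := by rw [← Real.exp_add]; norm_num
          have e5 : (2 : ℝ) ≤ Real.exp 1 := by
            have := Real.add_one_le_exp (1 : ℝ); linarith
          have e6 : Real.exp 10 = Real.exp 1 ^ 10 := by rw [← Real.exp_nat_mul]; norm_num
          have e7 : (2 : ℝ) ^ 10 ≤ Real.exp 10 := by
            rw [e6]
            exact pow_le_pow_left₀ (by norm_num) e5 10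
          rw [e4]
          nlinarith
        have := Real.log_le_log (by norm_num) e3
        rwa [Real.log_exp] at this
      push_cast at h3 ⊢
      linarith
    have hlogP : Real.log P ≤ 20 + 12 * Real.log y := by
      have h1 : Real.log P ≤ Real.log y :=
        Real.log_le_log (by exact_mod_cast hP) (by exact_mod_cast hPy)
      linarith
    refine h (20 + 12 * Real.log y) P A T B δ _ _ (by linarith) hP hlogP hδ hA0 rfl rfl hD0 hlogAD
      S hSP ?_
    intro p hp
    obtain ⟨_, _, b, hb⟩ := hS p hp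
    refine ⟨b, ?_⟩
    have e1 : (p ^ 2 + p + 1) * T = (e * k ^ 2 + A) * p ^ 2 + T * p + (B + 1) := by
      rw [← hA, ← hB]; ring
    have e2 : e * (p * k) ^ 2 = e * k ^ 2 * p ^ 2 := by ring
    rw [e1, e2] at hb
    nlinarith

theorem exists_dyadic {p : ℕ} (hp : 2 ≤ p) : ∃ j, 2 ^ j < p ∧ p ≤ 2 * 2 ^ j := by
  refine ⟨Nat.log 2 (p - 1), ?_, ?_⟩
  · have := Nat.pow_log_le_self 2 (show p - 1 ≠ 0 by omega)
    omega
  · have := Nat.lt_pow_succ_log_self (b := 2) (by norm_num) (p - 1)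
    rw [pow_succ] at this
    omega

open Classical in
/-- the `a ≤ y` with a prime factor `> z` -/
theorem count_big : ∃ C : ℝ, 0 < C ∧ ∀ (y e : ℕ) (z : ℝ), 2 ≤ y → 2 ≤ z → (e = 1 ∨ e = 2) →
    (((Icc 1 y).filter (fun a => EqMem (e * a ^ 2) ∧ ∃ p : ℕ, p.Prime ∧ z < p ∧ p ∣ a)).card : ℝ) ≤
      C * y * (Real.log y) ^ 2 / Real.sqrt z := by
  obtain ⟨C, hC, hk⟩ := count_k
  have hl2 : (0 : ℝ) < Real.log 2 := Real.log_pos (by norm_num)
  refine ⟨(2 / Real.log 2) * ((4 + 4 * C * 20) / Real.log 2 + 4 * C * 12), by positivity, ?_⟩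
  intro y e z hy hz he
  have hyr : (2 : ℝ) ≤ y := by exact_mod_cast hy
  have hly : Real.log 2 ≤ Real.log y := Real.log_le_log (by norm_num) hyr
  have hly0 : 0 < Real.log y := by linarith
  have hz0 : 0 < z := by linarith
  have hsz : 0 < Real.sqrt z := Real.sqrt_pos.2 hz0
  set J := Nat.log 2 y with hJ
  set JJ := (range (J + 1)).filter (fun j => z < 2 * (2 : ℝ) ^ j) with hJJ
  -- the sets
  let S : ℕ → ℕ → ℕ → Finset ℕ := fun j k δ => (Ioc (2 ^ j) (2 * 2 ^ j)).filter
    (fun p => p.Prime ∧ 2 < p ∧ ∃ b : ℕ,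
      (p ^ 2 + p + 1) * σ 1 (e * k ^ 2) = e * (p * k) ^ 2 + δ * b ^ 2 + 1)
  let U : ℕ → Finset ℕ := fun j => (Icc 1 (y / 2 ^ j)).biUnion (fun k =>
    (S j k 1 ∪ S j k 2).image (fun p => p * k))
  let V : ℕ → Finset ℕ := fun j => ((Ioc (2 ^ j) (2 * 2 ^ j)) ×ˢ (Icc 1 (y / (2 ^ j * 2 ^ j)))).image
    (fun x => x.1 * x.1 * x.2)
  have hsub : (Icc 1 y).filter (fun a => EqMem (e * a ^ 2) ∧ ∃ p : ℕ, p.Prime ∧ z < p ∧ p ∣ a) ⊆
      JJ.biUnion (fun j => U j ∪ V j) := by
    intro a ha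
    obtain ⟨ha1, hm, p, hp, hzp, hpa⟩ := mem_filter.1 ha
    rw [mem_Icc] at ha1
    have hp2 : 2 < p := by
      have : (2 : ℝ) < p := by linarith
      exact_mod_cast this
    obtain ⟨j, hj1, hj2⟩ := exists_dyadic hp.two_le
    have hpy : p ≤ y := le_trans (Nat.le_of_dvd ha1.1 hpa) ha1.2
    have hjJ : j ≤ J := by
      rw [hJ]
      exact Nat.le_log_of_pow_le (by norm_num) (by omega)
    have hjz : z < 2 * (2 : ℝ) ^ j := by
      have : (p : ℝ) ≤ 2 * 2 ^ j := by exact_mod_cast hj2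
      linarith
    rw [mem_biUnion]
    refine ⟨j, mem_filter.2 ⟨mem_range.2 (by omega), hjz⟩, ?_⟩
    rw [mem_union]
    obtain ⟨k, rfl⟩ := hpa
    have hk0 : 0 < k := by
      rcases Nat.eq_zero_or_pos k with h0 | h0
      · subst h0
        omega
      · exact h0
    by_cases hpk : p ∣ k
    · right
      obtain ⟨k', rfl⟩ := hpk
      have hk'0 : 0 < k' := by
        rcases Nat.eq_zero_or_pos k' with h0 | h0
        · subst h0
          omega
        · exact h0
      refine mem_image.2 ⟨(p, k'), mem_product.2 ⟨mem_Ioc.2 ⟨hj1, hj2⟩, mem_Icc.2 ⟨hk'0, ?_⟩⟩, ?_⟩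
      · rw [Nat.le_div_iff_mul_le (by positivity)]
        calc k' * (2 ^ j * 2 ^ j) ≤ k' * (p * p) :=
              Nat.mul_le_mul_left _ (Nat.mul_le_mul hj1.le hj1.le)
          _ = p * (p * k') := by ring
          _ ≤ y := ha1.2
      · ring
    · left
      refine mem_biUnion.2 ⟨k, mem_Icc.2 ⟨hk0, ?_⟩, ?_⟩
      · rw [Nat.le_div_iff_mul_le (by positivity)]
        calc k * 2 ^ j ≤ k * p := Nat.mul_le_mul_left _ hj1.le
          _ = p * k := by ring
          _ ≤ y := ha1.2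
      · obtain ⟨δ, b, hδ, _, hb⟩ := eqn he hp hp2 hpk hm
        refine mem_image.2 ⟨p, ?_, rfl⟩
        rw [mem_union]
        rcases hδ with rfl | rfl
        · left
          exact mem_filter.2 ⟨mem_Ioc.2 ⟨hj1, hj2⟩, hp, hp2, b, hb⟩
        · right
          exact mem_filter.2 ⟨mem_Ioc.2 ⟨hj1, hj2⟩, hp, hp2, b, hb⟩
  have hcard : ∀ j ∈ JJ, ((U j ∪ V j).card : ℝ) ≤
      (4 + 4 * C * (20 + 12 * Real.log y)) * y / Real.sqrt z := by
    intro j hj
    obtain ⟨hj1, hj2⟩ := mem_filter.1 hj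
    have hjJ : j ≤ J := by
      have := mem_range.1 hj1
      omega
    have hPy : 2 ^ j ≤ y := by
      refine le_trans (Nat.pow_le_pow_right (by norm_num) hjJ) ?_
      exact Nat.pow_log_le_self 2 (by omega)
    have hP0 : (0 : ℝ) < (2 : ℝ) ^ j := by positivity
    have hsP : 0 < Real.sqrt ((2 : ℝ) ^ j) := Real.sqrt_pos.2 hP0
    have hUc : ((U j).card : ℝ) ≤ (y / (2 : ℝ) ^ j) *
        (2 * (C * (20 + 12 * Real.log y) * Real.sqrt ((2 : ℝ) ^ j))) := by
      have e1 : (U j).card ≤ ∑ k ∈ Icc 1 (y / 2 ^ j), (S j k 1 ∪ S j k 2).card :=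
        le_trans card_biUnion_le (sum_le_sum (fun k _ => card_image_le))
      have e2 : ∀ k ∈ Icc 1 (y / 2 ^ j), ((S j k 1 ∪ S j k 2).card : ℝ) ≤
          2 * (C * (20 + 12 * Real.log y) * Real.sqrt ((2 : ℝ) ^ j)) := by
        intro k hkk
        rw [mem_Icc] at hkk
        have hky : k ≤ y := le_trans hkk.2 (Nat.div_le_self _ _)
        have e3 := hk y (2 ^ j) e k 1 (by omega) Nat.one_le_two_pow hPy he (Or.inl rfl) (by omega) hky
          (S j k 1) (filter_subset _ _) (fun p hp => (mem_filter.1 hp).2)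
        have e4 := hk y (2 ^ j) e k 2 (by omega) Nat.one_le_two_pow hPy he (Or.inr rfl) (by omega) hky
          (S j k 2) (filter_subset _ _) (fun p hp => (mem_filter.1 hp).2)
        have e5 : ((S j k 1 ∪ S j k 2).card : ℝ) ≤ (S j k 1).card + (S j k 2).card := by
          exact_mod_cast card_union_le _ _
        push_cast at e3 e4
        linarith
      have e6 : ((U j).card : ℝ) ≤ ∑ k ∈ Icc 1 (y / 2 ^ j),
          2 * (C * (20 + 12 * Real.log y) * Real.sqrt ((2 : ℝ) ^ j)) := by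
        refine le_trans (Nat.cast_le.2 e1) ?_
        rw [Nat.cast_sum]
        exact sum_le_sum e2
      rw [sum_const, nsmul_eq_mul, Nat.card_Icc, Nat.add_sub_cancel] at e6
      refine le_trans e6 (mul_le_mul_of_nonneg_right ?_ (by positivity))
      have := @Nat.cast_div_le ℝ _ _ _ y (2 ^ j)
      push_cast at this
      exact this
    have hVc : ((V j).card : ℝ) ≤ y / (2 : ℝ) ^ j := by
      have e1 : (V j).card ≤ 2 ^ j * (y / (2 ^ j * 2 ^ j)) := by
        refine le_trans card_image_le ?_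
        rw [card_product, Nat.card_Ioc, Nat.card_Icc]
        refine Nat.mul_le_mul (by omega) (Nat.add_sub_cancel _ _).le
      have e2 : ((V j).card : ℝ) ≤ (2 : ℝ) ^ j * ((y : ℝ) / ((2 : ℝ) ^ j * (2 : ℝ) ^ j)) := by
        refine le_trans (Nat.cast_le.2 e1) ?_
        push_cast
        refine mul_le_mul_of_nonneg_left ?_ hP0.le
        have := @Nat.cast_div_le ℝ _ _ _ y (2 ^ j * 2 ^ j)
        push_cast at this
        exact this
      refine le_trans e2 (le_of_eq ?_)
      field_simp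
    have hsum : ((U j ∪ V j).card : ℝ) ≤ (U j).card + (V j).card := by
      exact_mod_cast card_union_le _ _
    -- `√z ≤ 2 √(2^j)` and `√z √z ≤ 2 · 2^j`
    have hs1 : Real.sqrt z ≤ 2 * Real.sqrt ((2 : ℝ) ^ j) := by
      rw [Real.sqrt_le_left (by positivity)]
      rw [mul_pow, Real.sq_sqrt hP0.le]
      linarith
    have hs3 : Real.sqrt ((2 : ℝ) ^ j) * Real.sqrt ((2 : ℝ) ^ j) = (2 : ℝ) ^ j :=
      Real.mul_self_sqrt hP0.le
    have hs4 : 1 ≤ Real.sqrt ((2 : ℝ) ^ j) := Real.one_le_sqrt.2 (one_le_pow₀ (by norm_num))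
    have hinv : 1 / Real.sqrt ((2 : ℝ) ^ j) ≤ 2 / Real.sqrt z := by
      rw [div_le_div_iff₀ hsP hsz]
      linarith
    have hinv2 : 1 / (2 : ℝ) ^ j ≤ 2 / Real.sqrt z := by
      refine le_trans ?_ hinv
      rw [div_le_div_iff₀ hP0 hsP, one_mul, one_mul]
      nlinarith
    have hUc' : ((U j).card : ℝ) ≤ (4 * C * (20 + 12 * Real.log y)) * y / Real.sqrt z := by
      refine le_trans hUc ?_
      have e1 : (y / (2 : ℝ) ^ j) * (2 * (C * (20 + 12 * Real.log y) * Real.sqrt ((2 : ℝ) ^ j))) =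
          (2 * C * (20 + 12 * Real.log y) * y) * (1 / Real.sqrt ((2 : ℝ) ^ j)) := by
        nth_rewrite 1 [← hs3]
        field_simp
      rw [e1]
      calc (2 * C * (20 + 12 * Real.log y) * y) * (1 / Real.sqrt ((2 : ℝ) ^ j)) ≤
          (2 * C * (20 + 12 * Real.log y) * y) * (2 / Real.sqrt z) :=
            mul_le_mul_of_nonneg_left hinv (by positivity)
        _ = (4 * C * (20 + 12 * Real.log y)) * y / Real.sqrt z := by ring
    have hVc' : ((V j).card : ℝ) ≤ 4 * y / Real.sqrt z := by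
      refine le_trans hVc ?_
      calc (y : ℝ) / (2 : ℝ) ^ j = y * (1 / (2 : ℝ) ^ j) := by ring
        _ ≤ y * (2 / Real.sqrt z) := mul_le_mul_of_nonneg_left hinv2 (by positivity)
        _ ≤ 4 * y / Real.sqrt z := by
          rw [← mul_div_assoc]
          exact div_le_div_of_nonneg_right (by linarith) hsz.le
    have e9 : (4 + 4 * C * (20 + 12 * Real.log y)) * y / Real.sqrt z =
        (4 * C * (20 + 12 * Real.log y)) * y / Real.sqrt z + 4 * y / Real.sqrt z := by ring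
    rw [e9]
    linarith
  have hJc : (JJ.card : ℝ) ≤ (2 / Real.log 2) * Real.log y := by
    have e1 : JJ.card ≤ J + 1 := by
      refine le_trans (card_filter_le _ _) ?_
      rw [card_range]
    have e2 : (J : ℝ) * Real.log 2 ≤ Real.log y := by
      have e3 : (2 : ℝ) ^ J ≤ y := by exact_mod_cast Nat.pow_log_le_self 2 (show y ≠ 0 by omega)
      have := Real.log_le_log (by positivity) e3
      rwa [Real.log_pow] at this
    have e4 : (JJ.card : ℝ) ≤ J + 1 := by exact_mod_cast e1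
    have e5 : (2 / Real.log 2) * Real.log y = (2 * Real.log y) / Real.log 2 := by ring
    rw [e5, le_div_iff₀ hl2]
    nlinarith
  have h1 : (((Icc 1 y).filter (fun a => EqMem (e * a ^ 2) ∧
      ∃ p : ℕ, p.Prime ∧ z < p ∧ p ∣ a)).card : ℝ) ≤
      ∑ j ∈ JJ, ((U j ∪ V j).card : ℝ) := by
    have e1 := le_trans (card_le_card hsub) (card_biUnion_le (s := JJ) (t := fun j => U j ∪ V j))
    rw [← Nat.cast_sum]
    exact Nat.cast_le.2 e1
  refine le_trans h1 (le_trans (sum_le_sum hcard) ?_)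
  rw [sum_const, nsmul_eq_mul]
  have h2 : (4 + 4 * C * (20 + 12 * Real.log y)) ≤
      ((4 + 4 * C * 20) / Real.log 2 + 4 * C * 12) * Real.log y := by
    have e1 : (4 + 4 * C * 20) ≤ (4 + 4 * C * 20) / Real.log 2 * Real.log y := by
      rw [div_mul_eq_mul_div, le_div_iff₀ hl2]
      exact mul_le_mul_of_nonneg_left hly (by positivity)
    nlinarith
  have h3 : (0 : ℝ) ≤ (4 + 4 * C * (20 + 12 * Real.log y)) * y / Real.sqrt z := by positivity
  calc (JJ.card : ℝ) * ((4 + 4 * C * (20 + 12 * Real.log y)) * y / Real.sqrt z)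
      ≤ ((2 / Real.log 2) * Real.log y) *
        ((((4 + 4 * C * 20) / Real.log 2 + 4 * C * 12) * Real.log y) * y / Real.sqrt z) := by
        refine mul_le_mul hJc ?_ h3 (by positivity)
        gcongr
    _ = _ := by ring

end Pool.Agent.H88.Bet
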