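import Pool.Agent.H88.Bet.CountP

/-!
# Rankin's upper bound for smooth numbers
-/

set_option autoImplicit false

open Finset Pool.Agent.CoprimeSieve

namespace Pool.Agent.H88.Bet

theorem sum_inv_pr : ∃ C : ℝ, 1 ≤ C ∧ ∀ z : ℝ, 2 ≤ z →
    ∑ p ∈ pr z, (1 : ℝ) / p ≤ Real.log (Real.log z) + C ∧ 0 ≤ Real.log (Real.log z) + C := by
  obtain ⟨C, hC, h⟩ := mertens_second_upper
  have hl2 : 0 < Real.log 2 := Real.log_pos (by norm_num)
  refine ⟨1 + C / Real.log 2 + |Real.log (Real.log 2)|, ?_, fun z hz => ?_⟩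
  · have : 0 ≤ C / Real.log 2 := by positivity
    have := abs_nonneg (Real.log (Real.log 2))
    linarith
  have hlz : Real.log 2 ≤ Real.log z := Real.log_le_log (by norm_num) hz
  have hllz : Real.log (Real.log 2) ≤ Real.log (Real.log z) := Real.log_le_log hl2 hlz
  have hab := neg_abs_le (Real.log (Real.log 2))
  have hC2 : 0 ≤ C / Real.log 2 := by positivity
  refine ⟨?_, by linarith⟩
  have h1 := h 2 z le_rfl hz
  rw [Real.log_div (by linarith) hl2.ne'] at h1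
  have h2 : ∑ p ∈ pr z, (1 : ℝ) / p ≤ 1 / 2 + ∑ p ∈ (pr z).filter (fun p : ℕ => 2 < (p : ℝ)), (1 : ℝ) / p := by
    have e1 : pr z ⊆ {2} ∪ (pr z).filter (fun p : ℕ => 2 < (p : ℝ)) := by
      intro p hp
      rw [mem_union, mem_singleton, mem_filter]
      have hp1 := ((mem_pr (by linarith)).1 hp).1
      rcases hp1.two_le.eq_or_lt with h0 | h0
      · left; exact h0.symm
      · right; exact ⟨hp, by exact_mod_cast h0⟩
    refine le_trans (sum_le_sum_of_subset_of_nonneg e1 (fun p _ _ => by positivity)) ?_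
    have e2 := Finset.sum_union_inter (s₁ := {2})
      (s₂ := (pr z).filter (fun p : ℕ => 2 < (p : ℝ))) (f := fun l : ℕ => (1 : ℝ) / l)
    have e3 : 0 ≤ ∑ l ∈ {2} ∩ (pr z).filter (fun p : ℕ => 2 < (p : ℝ)), (1 : ℝ) / l :=
      sum_nonneg (fun _ _ => by positivity)
    rw [sum_singleton] at e2
    push_cast at e2
    linarith
  linarith

/-- `n ↦ n ^ (-σ)` -/
noncomputable def fR (s : ℝ) : ℕ →* ℝ where
  toFun n := (n : ℝ) ^ (-s)
  map_one' := by simp
  map_mul' m n := by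
    push_cast
    exact Real.mul_rpow (by positivity) (by positivity)

theorem fR_apply (s : ℝ) (n : ℕ) : fR s n = (n : ℝ) ^ (-s) := rfl

theorem rankin : ∃ C : ℝ, 1 ≤ C ∧ ∀ (y : ℕ) (z th : ℝ), 1 ≤ y → 2 ≤ z → 0 ≤ th → th ≤ 1 / 2 →
    0 ≤ Real.log (Real.log z) + C ∧
    (((Icc 1 y).filter (fun a => ∀ p ∈ a.primeFactors, ((p : ℕ) : ℝ) ≤ z)).card : ℝ) ≤
      y * Real.exp (-(th * Real.log y) + 4 * z ^ th * (Real.log (Real.log z) + C)) := by
  obtain ⟨C, hC, h⟩ := sum_inv_pr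
  refine ⟨C, hC, ?_⟩
  intro y z th hy hz hth hth2
  obtain ⟨hs, hs0⟩ := h z hz
  refine ⟨hs0, ?_⟩
  have hyr : (1 : ℝ) ≤ y := by exact_mod_cast hy
  set s : ℝ := 1 - th with hsdef
  have hs1 : 1 / 2 ≤ s := by rw [hsdef]; linarith
  set w : ℕ := ⌊z⌋₊ with hw
  have hz0 : (0 : ℝ) ≤ z := by linarith
  have hf : ∀ {p : ℕ}, p.Prime → 0 < fR s p ∧ fR s p ≤ 0.71 := by
    intro p hp
    rw [fR_apply]
    have hp2 : (2 : ℝ) ≤ p := by exact_mod_cast hp.two_le
    refine ⟨by positivity, ?_⟩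
    calc (p : ℝ) ^ (-s) ≤ (2 : ℝ) ^ (-s) := Real.rpow_le_rpow_of_nonpos (by norm_num) hp2 (by linarith)
      _ ≤ (2 : ℝ) ^ (-(1 / 2) : ℝ) := Real.rpow_le_rpow_of_exponent_le (by norm_num) (by linarith)
      _ ≤ 0.71 := by
        have e1 : ((2 : ℝ) ^ (-(1 / 2) : ℝ)) ^ 2 = 1 / 2 := by
          rw [← Real.rpow_natCast, ← Real.rpow_mul (by norm_num)]
          norm_num
        have e2 : (0 : ℝ) ≤ (2 : ℝ) ^ (-(1 / 2) : ℝ) := by positivity
        nlinarith
  have hf1 : ∀ {p : ℕ}, p.Prime → ‖fR s p‖ < 1 := by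
    intro p hp
    rw [Real.norm_of_nonneg (hf hp).1.le]
    linarith [(hf hp).2]
  obtain ⟨h1, h2⟩ := EulerProduct.summable_and_hasSum_smoothNumbers_prod_primesBelow_geometric
    (f := fR s) hf1 (w + 1)
  have h3 : ∑ n ∈ (Icc 1 y).filter (fun a => ∀ p ∈ a.primeFactors, ((p : ℕ) : ℝ) ≤ z), fR s n ≤
      ∏ p ∈ (w + 1).primesBelow, (1 - fR s p)⁻¹ := by
    have hmem : ∀ n ∈ (Icc 1 y).filter (fun a => ∀ p ∈ a.primeFactors, ((p : ℕ) : ℝ) ≤ z),
        n ∈ (w + 1).smoothNumbers := by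
      intro n hn
      rw [Finset.mem_filter, Finset.mem_Icc] at hn
      refine ⟨by omega, ?_⟩
      intro p hp
      have h4 := hn.2 p (by rw [Nat.primeFactors]; simpa using hp)
      have h5 : p ≤ w := (Nat.le_floor_iff hz0).2 h4
      omega
    classical
    have h4 := sum_le_hasSum (((Icc 1 y).filter (fun a => ∀ p ∈ a.primeFactors, ((p : ℕ) : ℝ) ≤ z)).subtype
      (fun n => n ∈ (w + 1).smoothNumbers))
      (fun i _ => (by rw [fR_apply]; positivity : (0 : ℝ) ≤ fR s i.1)) h2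
    refine le_trans (le_of_eq ?_) h4
    exact (Finset.sum_subtype_of_mem (fun x => fR s x) hmem).symm
  have h5 : ∏ p ∈ (w + 1).primesBelow, (1 - fR s p)⁻¹ ≤
      Real.exp (∑ p ∈ (w + 1).primesBelow, 4 * fR s p) := by
    rw [Real.exp_sum]
    apply Finset.prod_le_prod
    · intro p hp
      have hpp := Nat.prime_of_mem_primesBelow hp
      have := (hf hpp).2
      have : 0 < 1 - fR s p := by linarith
      positivity
    · intro p hp
      have hpp := Nat.prime_of_mem_primesBelow hp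
      obtain ⟨ht0, ht1⟩ := hf hpp
      set t := fR s p with ht
      have h6 : 1 + 4 * t + 8 * t ^ 2 ≤ Real.exp (4 * t) := by
        have := Real.quadratic_le_exp_of_nonneg (show 0 ≤ 4 * t by linarith)
        linarith [this]
      have h7 : 1 ≤ (1 - t) * (1 + 4 * t + 8 * t ^ 2) := by
        have e1 : (1 - t) * (1 + 4 * t + 8 * t ^ 2) = 1 + t * (3 + 4 * t - 8 * t ^ 2) := by ring
        rw [e1]
        have e2 : 0 ≤ 3 + 4 * t - 8 * t ^ 2 := by nlinarith
        nlinarith [mul_nonneg ht0.le e2]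
      have h8 : 0 < 1 - t := by linarith
      rw [inv_le_iff_one_le_mul₀ h8]
      calc (1 : ℝ) ≤ (1 - t) * (1 + 4 * t + 8 * t ^ 2) := h7
        _ ≤ (1 - t) * Real.exp (4 * t) := mul_le_mul_of_nonneg_left h6 h8.le
        _ = _ := by ring
  have h6 : ∑ p ∈ (w + 1).primesBelow, 4 * fR s p ≤ 4 * z ^ th * (Real.log (Real.log z) + C) := by
    have e1 : (w + 1).primesBelow = pr z := by
      ext p
      rw [Nat.mem_primesBelow, mem_pr hz0]
      constructor
      · rintro ⟨h1, h2⟩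
        exact ⟨h2, (Nat.le_floor_iff hz0).1 (by omega)⟩
      · rintro ⟨h1, h2⟩
        have := (Nat.le_floor_iff hz0).2 h2
        exact ⟨by omega, h1⟩
    rw [e1, ← mul_sum, mul_assoc]
    refine mul_le_mul_of_nonneg_left ?_ (by norm_num)
    have e2 : ∑ p ∈ pr z, fR s p ≤ ∑ p ∈ pr z, z ^ th * ((1 : ℝ) / p) := by
      refine sum_le_sum (fun p hp => ?_)
      obtain ⟨hp1, hp2⟩ := (mem_pr hz0).1 hp
      have hp0 : (0 : ℝ) < p := by exact_mod_cast hp1.pos
      rw [fR_apply]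
      have e3 : -s = th - 1 := by rw [hsdef]; ring
      rw [e3, Real.rpow_sub_one hp0.ne', mul_one_div]
      gcongr
    refine le_trans e2 ?_
    rw [← mul_sum]
    exact mul_le_mul_of_nonneg_left hs (by positivity)
  -- conclusion
  have h7 : ∑ n ∈ (Icc 1 y).filter (fun a => ∀ p ∈ a.primeFactors, ((p : ℕ) : ℝ) ≤ z), ((y : ℝ) ^ (-s)) ≤
      ∑ n ∈ (Icc 1 y).filter (fun a => ∀ p ∈ a.primeFactors, ((p : ℕ) : ℝ) ≤ z), fR s n := by
    refine sum_le_sum (fun n hn => ?_)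
    obtain ⟨hn1, _⟩ := mem_filter.1 hn
    rw [mem_Icc] at hn1
    rw [fR_apply]
    exact Real.rpow_le_rpow_of_nonpos (by exact_mod_cast hn1.1) (by exact_mod_cast hn1.2) (by linarith)
  rw [sum_const, nsmul_eq_mul] at h7
  have h8 : (((Icc 1 y).filter (fun a => ∀ p ∈ a.primeFactors, ((p : ℕ) : ℝ) ≤ z)).card : ℝ) * (y : ℝ) ^ (-s) ≤
      Real.exp (4 * z ^ th * (Real.log (Real.log z) + C)) :=
    le_trans h7 (le_trans h3 (le_trans h5 (Real.exp_le_exp.2 h6)))
  have hy0 : (0 : ℝ) < y := by linarith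
  have h9 : (y : ℝ) ^ (-s) = Real.exp (th * Real.log y) / y := by
    have e3 : -s = th - 1 := by rw [hsdef]; ring
    rw [e3, Real.rpow_sub_one hy0.ne', Real.rpow_def_of_pos hy0, mul_comm (Real.log (y : ℝ))]
  rw [h9, ← mul_div_assoc, div_le_iff₀ hy0] at h8
  rw [Real.exp_add, Real.exp_neg]
  calc (((Icc 1 y).filter (fun a => ∀ p ∈ a.primeFactors, ((p : ℕ) : ℝ) ≤ z)).card : ℝ)
      = ((((Icc 1 y).filter (fun a => ∀ p ∈ a.primeFactors, ((p : ℕ) : ℝ) ≤ z)).card : ℝ) *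
        Real.exp (th * Real.log y)) * (Real.exp (th * Real.log y))⁻¹ := by
        field_simp
    _ ≤ (Real.exp (4 * z ^ th * (Real.log (Real.log z) + C)) * y) * (Real.exp (th * Real.log y))⁻¹ :=
        mul_le_mul_of_nonneg_right h8 (by positivity)
    _ = _ := by ring

end Pool.Agent.H88.Bet
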