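import Pool.Agent.H88.Bet.Big
import Pool.Agent.H88.Bet.Smooth

/-!
# The counting theorem
-/

set_option autoImplicit false

open Finset Filter

namespace Pool.Agent.H88.Bet

/-- members `≤ x` -/
theorem cover {x : ℝ} (Q : ℕ → Prop) :
    {m : ℕ | (m : ℝ) ≤ x ∧ EqMem m ∧ Q m} ⊆
      ⋃ e ∈ ({1, 2} : Finset ℕ), (fun a : ℕ => e * a ^ 2) ''
        {a : ℕ | 1 ≤ a ∧ a ≤ ⌊Real.sqrt x⌋₊ ∧ EqMem (e * a ^ 2) ∧ Q (e * a ^ 2)} := by
  rintro m ⟨hmx, hm, hQ⟩
  obtain ⟨n, hb, hpar⟩ := id hm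
  obtain ⟨⟨e, a, he, ha, rfl⟩, -⟩ := sq_of_betrothed hb hpar
  simp only [Set.mem_iUnion, mem_insert, mem_singleton, exists_prop]
  refine ⟨e, he, a, ⟨ha, ?_, hm, hQ⟩, rfl⟩
  refine Nat.le_floor ?_
  refine Real.le_sqrt_of_sq_le ?_
  refine le_trans ?_ hmx
  push_cast
  have he1 : (1 : ℝ) ≤ e := by rcases he with rfl | rfl <;> norm_num
  nlinarith [sq_nonneg (a : ℝ)]

theorem ncard_le {x : ℝ} (Q : ℕ → Prop) (K : ℝ)
    (h : ∀ e : ℕ, (e = 1 ∨ e = 2) →
      ({a : ℕ | 1 ≤ a ∧ a ≤ ⌊Real.sqrt x⌋₊ ∧ EqMem (e * a ^ 2) ∧ Q (e * a ^ 2)}.ncard : ℝ) ≤ K) :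
    ({m : ℕ | (m : ℝ) ≤ x ∧ EqMem m ∧ Q m}.ncard : ℝ) ≤ 2 * K := by
  have hfin : ∀ e : ℕ, {a : ℕ | 1 ≤ a ∧ a ≤ ⌊Real.sqrt x⌋₊ ∧ EqMem (e * a ^ 2) ∧
      Q (e * a ^ 2)}.Finite := fun e =>
    (Set.finite_Icc 1 ⌊Real.sqrt x⌋₊).subset (fun a ha => ⟨ha.1, ha.2.1⟩)
  have hfin' : ∀ e : ℕ, ((fun a : ℕ => e * a ^ 2) ''
      {a : ℕ | 1 ≤ a ∧ a ≤ ⌊Real.sqrt x⌋₊ ∧ EqMem (e * a ^ 2) ∧ Q (e * a ^ 2)}).Finite :=
    fun e => (hfin e).image _
  have h1 : {m : ℕ | (m : ℝ) ≤ x ∧ EqMem m ∧ Q m} ⊆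
      ((fun a : ℕ => 1 * a ^ 2) '' {a : ℕ | 1 ≤ a ∧ a ≤ ⌊Real.sqrt x⌋₊ ∧ EqMem (1 * a ^ 2) ∧
        Q (1 * a ^ 2)}) ∪
      ((fun a : ℕ => 2 * a ^ 2) '' {a : ℕ | 1 ≤ a ∧ a ≤ ⌊Real.sqrt x⌋₊ ∧ EqMem (2 * a ^ 2) ∧
        Q (2 * a ^ 2)}) := by
    intro m hm
    have h2 := cover Q hm
    simp only [Set.mem_iUnion, mem_insert, mem_singleton, exists_prop] at h2
    obtain ⟨e, he, h3⟩ := h2
    rcases he with rfl | rfl
    · exact Or.inl h3
    · exact Or.inr h3
  have h2 := Set.ncard_le_ncard h1 ((hfin' 1).union (hfin' 2))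
  have h3 := Set.ncard_union_le ((fun a : ℕ => 1 * a ^ 2) ''
    {a : ℕ | 1 ≤ a ∧ a ≤ ⌊Real.sqrt x⌋₊ ∧ EqMem (1 * a ^ 2) ∧ Q (1 * a ^ 2)})
    ((fun a : ℕ => 2 * a ^ 2) ''
    {a : ℕ | 1 ≤ a ∧ a ≤ ⌊Real.sqrt x⌋₊ ∧ EqMem (2 * a ^ 2) ∧ Q (2 * a ^ 2)})
  have h4 := Set.ncard_image_le (f := fun a : ℕ => 1 * a ^ 2) (hfin 1)
  have h5 := Set.ncard_image_le (f := fun a : ℕ => 2 * a ^ 2) (hfin 2)
  have h6 := h 1 (Or.inl rfl)
  have h7 := h 2 (Or.inr rfl)
  have h8 : ({m : ℕ | (m : ℝ) ≤ x ∧ EqMem m ∧ Q m}.ncard : ℝ) ≤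
      ({a : ℕ | 1 ≤ a ∧ a ≤ ⌊Real.sqrt x⌋₊ ∧ EqMem (1 * a ^ 2) ∧ Q (1 * a ^ 2)}.ncard : ℝ) +
      ({a : ℕ | 1 ≤ a ∧ a ≤ ⌊Real.sqrt x⌋₊ ∧ EqMem (2 * a ^ 2) ∧ Q (2 * a ^ 2)}.ncard : ℝ) := by
    exact_mod_cast le_trans h2 (le_trans h3 (add_le_add h4 h5))
  linarith

theorem large_prime_factor : ∃ C : ℝ, 0 < C ∧ ∀ x z : ℝ, 4 ≤ x → 2 ≤ z →
    ({m : ℕ | (m : ℝ) ≤ x ∧ EqMem m ∧ ∃ p : ℕ, p.Prime ∧ z < p ∧ p ∣ m}.ncard : ℝ) ≤
      C * Real.sqrt x * (Real.log x) ^ 2 / Real.sqrt z := by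
  classical
  obtain ⟨C, hC, h⟩ := count_big
  refine ⟨2 * C, by positivity, ?_⟩
  intro x z hx hz
  have hx0 : 0 ≤ x := by linarith
  have hsx : 2 ≤ Real.sqrt x := by
    rw [show (2 : ℝ) = Real.sqrt 4 by rw [show (4 : ℝ) = 2 ^ 2 by norm_num, Real.sqrt_sq (by norm_num)]]
    exact Real.sqrt_le_sqrt hx
  have hy2 : 2 ≤ ⌊Real.sqrt x⌋₊ := Nat.le_floor (by exact_mod_cast hsx)
  have hyx : (⌊Real.sqrt x⌋₊ : ℝ) ≤ Real.sqrt x := Nat.floor_le (by positivity)
  have hy0 : (0 : ℝ) < (⌊Real.sqrt x⌋₊ : ℝ) := by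
    have : 0 < ⌊Real.sqrt x⌋₊ := by omega
    exact_mod_cast this
  have hlog : Real.log (⌊Real.sqrt x⌋₊ : ℝ) ≤ Real.log x := by
    refine Real.log_le_log hy0 (le_trans hyx ?_)
    rw [Real.sqrt_le_left hx0]
    nlinarith
  have hlog0 : 0 ≤ Real.log (⌊Real.sqrt x⌋₊ : ℝ) := Real.log_nonneg (by
    have : 1 ≤ ⌊Real.sqrt x⌋₊ := by omega
    exact_mod_cast this)
  have hsz : 0 < Real.sqrt z := Real.sqrt_pos.2 (by linarith)
  have key := ncard_le (x := x) (fun m => ∃ p : ℕ, p.Prime ∧ z < p ∧ p ∣ m)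
    (C * Real.sqrt x * (Real.log x) ^ 2 / Real.sqrt z) (by
      intro e he
      have h1 := h ⌊Real.sqrt x⌋₊ e z hy2 hz he
      have h2 : {a : ℕ | 1 ≤ a ∧ a ≤ ⌊Real.sqrt x⌋₊ ∧ EqMem (e * a ^ 2) ∧
          ∃ p : ℕ, p.Prime ∧ z < p ∧ p ∣ e * a ^ 2} ⊆
          (((Icc 1 ⌊Real.sqrt x⌋₊).filter (fun a => EqMem (e * a ^ 2) ∧
            ∃ p : ℕ, p.Prime ∧ z < p ∧ p ∣ a) : Finset ℕ) : Set ℕ) := by
        rintro a ⟨ha1, ha2, hm, p, hp, hzp, hpa⟩
        rw [mem_coe, mem_filter, mem_Icc]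
        refine ⟨⟨ha1, ha2⟩, hm, p, hp, hzp, ?_⟩
        rcases (Nat.Prime.dvd_mul hp).1 hpa with h0 | h0
        · exfalso
          have h3 : p ≤ e := Nat.le_of_dvd (by omega) h0
          have h4 : (2 : ℝ) < p := by linarith
          have h5 : 2 < p := by exact_mod_cast h4
          omega
        · exact hp.dvd_of_dvd_pow h0
      have h3 := Set.ncard_le_ncard h2 (Finset.finite_toSet _)
      rw [Set.ncard_coe_finset] at h3
      refine le_trans (Nat.cast_le.2 h3) (le_trans h1 ?_)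
      gcongr)
  refine le_trans key (le_of_eq ?_)
  ring

theorem asym (K : ℝ) (hK : 0 < K) (ε : ℝ) (hε : 0 < ε) :
    ∀ᶠ L : ℝ in atTop, K + K * (L ^ ((12 : ℝ) / 25) * (Real.log L + K)) ≤ ε * Real.sqrt L := by
  have h1 := (isLittleO_log_rpow_atTop (show (0 : ℝ) < 1 / 50 by norm_num)).bound
    (show 0 < ε / (4 * K) by positivity)
  have h2 : Tendsto (fun L : ℝ => L ^ ((1 : ℝ) / 50)) atTop atTop := tendsto_rpow_atTop (by norm_num)
  have h3 : Tendsto (fun L : ℝ => L ^ ((1 : ℝ) / 2)) atTop atTop := tendsto_rpow_atTop (by norm_num)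
  filter_upwards [h1, h2.eventually_ge_atTop (K / (ε / (4 * K))), h3.eventually_ge_atTop (K / (ε / 2)),
    eventually_ge_atTop 1] with L e1 e2 e3 hL
  have hL0 : 0 < L := by linarith
  have hlog : 0 ≤ Real.log L := Real.log_nonneg hL
  rw [Real.norm_of_nonneg hlog, Real.norm_of_nonneg (by positivity)] at e1
  rw [div_le_iff₀ (by positivity)] at e2 e3
  have hsq : Real.sqrt L = L ^ ((1 : ℝ) / 2) := Real.sqrt_eq_rpow L
  rw [hsq]
  have e4 : L ^ ((12 : ℝ) / 25) * (Real.log L + K) ≤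
      L ^ ((12 : ℝ) / 25) * (2 * (ε / (4 * K)) * L ^ ((1 : ℝ) / 50)) := by
    refine mul_le_mul_of_nonneg_left ?_ (by positivity)
    linarith
  have e5 : L ^ ((12 : ℝ) / 25) * (2 * (ε / (4 * K)) * L ^ ((1 : ℝ) / 50)) =
      ε / (2 * K) * L ^ ((1 : ℝ) / 2) := by
    have : L ^ ((12 : ℝ) / 25) * L ^ ((1 : ℝ) / 50) = L ^ ((1 : ℝ) / 2) := by
      rw [← Real.rpow_add hL0]
      norm_num
    rw [← this]
    field_simp
    ring
  have e6 : K * (L ^ ((12 : ℝ) / 25) * (Real.log L + K)) ≤ ε / 2 * L ^ ((1 : ℝ) / 2) := by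
    calc K * (L ^ ((12 : ℝ) / 25) * (Real.log L + K)) ≤ K * (ε / (2 * K) * L ^ ((1 : ℝ) / 2)) := by
          rw [← e5]
          exact mul_le_mul_of_nonneg_left e4 hK.le
      _ = ε / 2 * L ^ ((1 : ℝ) / 2) := by field_simp
  linarith

theorem rare : ∃ x0 : ℝ, ∀ x : ℝ, x0 ≤ x →
    ({m : ℕ | (m : ℝ) ≤ x ∧ EqMem m}.ncard : ℝ) ≤
      Real.sqrt x * Real.exp (-(1 / 3) * Real.sqrt (Real.log x * Real.log (Real.log x))) := by
  classical
  obtain ⟨C, hC, hbig⟩ := count_big
  obtain ⟨C', hC', hsm⟩ := rankin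
  -- eventual inequalities in `L = log x`
  have hA1 := asym (max (Real.log (4 * C) + 2) (max 10 (4 * C' + 10))) (by positivity) (1 / 100)
    (by norm_num)
  have hlogT := Real.tendsto_log_atTop
  have hev : ∀ᶠ x : ℝ in atTop, ({m : ℕ | (m : ℝ) ≤ x ∧ EqMem m}.ncard : ℝ) ≤
      Real.sqrt x * Real.exp (-(1 / 3) * Real.sqrt (Real.log x * Real.log (Real.log x))) := by
    have hll : Tendsto (fun x => Real.log (Real.log x)) atTop atTop := hlogT.comp hlogT
    filter_upwards [hlogT.eventually hA1, hlogT.eventually_ge_atTop 100,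
      hll.eventually_ge_atTop 10, eventually_ge_atTop 100] with x h1 hL100 hll10 hx100
    set L := Real.log x with hLdef
    set K := max (Real.log (4 * C) + 2) (max 10 (4 * C' + 10)) with hKdef
    have hK1 : Real.log (4 * C) + 2 ≤ K := le_max_left _ _
    have hK2 : 10 ≤ K := le_trans (le_max_left _ _) (le_max_right _ _)
    have hK3 : 4 * C' + 10 ≤ K := le_trans (le_max_right _ _) (le_max_right _ _)
    have hL0 : 0 < L := by linarith
    have hx0 : 0 < x := by linarith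
    have hLL : Real.log L ≤ L := by
      have := Real.log_le_sub_one_of_pos hL0
      linarith
    set u := Real.sqrt (L * Real.log L) with hu
    have huL : Real.sqrt L ≤ u := by
      rw [hu]
      refine Real.sqrt_le_sqrt ?_
      nlinarith
    have huL2 : u ≤ L := by
      rw [hu, Real.sqrt_le_left hL0.le]
      nlinarith
    have hu0 : 0 < u := lt_of_lt_of_le (Real.sqrt_pos.2 hL0) huL
    have huu : u * u = L * Real.log L := Real.mul_self_sqrt (by positivity)
    have hu10 : 10 ≤ u := by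
      refine le_trans ?_ huL
      rw [show (10 : ℝ) = Real.sqrt 100 by
        rw [show (100 : ℝ) = 10 ^ 2 by norm_num, Real.sqrt_sq (by norm_num)]]
      exact Real.sqrt_le_sqrt hL100
    -- parameters
    set z := Real.exp (69 / 100 * u) with hz
    set th := (12 / 25) * Real.log L / (69 / 100 * u) with hth
    have hz2 : 2 ≤ z := by
      have := Real.add_one_le_exp (69 / 100 * u)
      rw [hz]
      linarith
    have hlogz : Real.log z = 69 / 100 * u := by rw [hz, Real.log_exp]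
    have hllz : Real.log (Real.log z) ≤ Real.log L := by
      rw [hlogz]
      refine Real.log_le_log (by positivity) (by linarith)
    have hth0 : 0 ≤ th := by positivity
    have hzth : z ^ th = L ^ ((12 : ℝ) / 25) := by
      rw [hz, ← Real.exp_mul, Real.rpow_def_of_pos hL0]
      congr 1
      rw [hth]
      field_simp
    -- `log L ≤ u / 10`
    have hlogLu : Real.log L ≤ u / 10 := by
      have e1 : (L ^ ((12 : ℝ) / 25)) ≥ 1 := Real.one_le_rpow (by linarith) (by norm_num)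
      have e2 : K + K * (L ^ ((12 : ℝ) / 25) * (Real.log L + K)) ≥ Real.log L := by
        have e3 : L ^ ((12 : ℝ) / 25) * (Real.log L + K) ≥ 1 * (Real.log L + K) := by
          refine mul_le_mul_of_nonneg_right e1 (by linarith)
        nlinarith
      have e4 : Real.log L ≤ 1 / 100 * Real.sqrt L := le_trans e2 h1
      linarith
    have hth2 : th ≤ 1 / 2 := by
      rw [hth, div_le_iff₀ (by positivity)]
      linarith
    -- the integer `y`
    set y := ⌊Real.sqrt x⌋₊ with hy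
    have hsx : 10 ≤ Real.sqrt x := by
      rw [show (10 : ℝ) = Real.sqrt 100 by
        rw [show (100 : ℝ) = 10 ^ 2 by norm_num, Real.sqrt_sq (by norm_num)]]
      exact Real.sqrt_le_sqrt hx100
    have hy2 : 2 ≤ y := Nat.le_floor (by push_cast; linarith)
    have hyr2 : (2 : ℝ) ≤ y := by exact_mod_cast hy2
    have hyx : (y : ℝ) ≤ Real.sqrt x := Nat.floor_le (by positivity)
    have hyx2 : Real.sqrt x / 2 ≤ y := by
      have := Nat.lt_floor_add_one (Real.sqrt x)
      rw [← hy] at this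
      linarith
    have hlogsx : Real.log (Real.sqrt x) = L / 2 := by rw [Real.log_sqrt hx0.le]
    have hlogy : Real.log y ≤ L := by
      have := Real.log_le_log (by linarith) hyx
      linarith
    have hlogy0 : 0 ≤ Real.log y := Real.log_nonneg (by linarith)
    have hlogy2 : L / 2 - 1 ≤ Real.log y := by
      have e1 := Real.log_le_log (by positivity) hyx2
      rw [Real.log_div (by positivity) (by norm_num), hlogsx] at e1
      have := Real.log_two_lt_d9
      linarith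
    -- `θ log y ≥ 0.3478 u - 1`
    have hthL : 8 / 23 * u - 1 ≤ th * Real.log y := by
      have e1 : th * L = 16 / 23 * u := by
        rw [hth, div_mul_eq_mul_div, div_eq_iff (by positivity)]
        linear_combination (-12 / 25 : ℝ) * huu
      have e2 : th * (L / 2 - 1) ≤ th * Real.log y := mul_le_mul_of_nonneg_left hlogy2 hth0
      nlinarith
    have key := ncard_le (x := x) (fun _ => True)
      (Real.sqrt x * (C * L ^ 2 * Real.exp (-(69 / 200 * u)) +
        Real.exp (-(8 / 23 * u) + 1 + 4 * L ^ ((12 : ℝ) / 25) * (Real.log L + C')))) (by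
        intro e he
        have b1 := hbig y e z hy2 hz2 he
        obtain ⟨b3, b2⟩ := hsm y z th (by omega) hz2 hth0 hth2
        have c1 : {a : ℕ | 1 ≤ a ∧ a ≤ ⌊Real.sqrt x⌋₊ ∧ EqMem (e * a ^ 2) ∧ True} ⊆
            (((Icc 1 y).filter (fun a => EqMem (e * a ^ 2) ∧ ∃ p : ℕ, p.Prime ∧ z < p ∧ p ∣ a) ∪
              (Icc 1 y).filter (fun a => ∀ p ∈ a.primeFactors, ((p : ℕ) : ℝ) ≤ z) : Finset ℕ) :
                Set ℕ) := by
          rintro a ⟨ha1, ha2, hm, -⟩
          rw [mem_coe, mem_union, mem_filter, mem_filter, mem_Icc]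
          by_cases hs : ∀ p ∈ a.primeFactors, ((p : ℕ) : ℝ) ≤ z
          · right
            exact ⟨⟨ha1, ha2⟩, hs⟩
          · left
            push Not at hs
            obtain ⟨p, hp, hzp⟩ := hs
            exact ⟨⟨ha1, ha2⟩, hm, p, Nat.prime_of_mem_primeFactors hp, hzp,
              Nat.dvd_of_mem_primeFactors hp⟩
        have c2 := Set.ncard_le_ncard c1 (Finset.finite_toSet _)
        rw [Set.ncard_coe_finset] at c2
        have c3 := le_trans c2 (card_union_le _ _)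
        have c4 := Nat.cast_le (α := ℝ).2 c3
        rw [Nat.cast_add] at c4
        refine le_trans c4 ?_
        rw [mul_add]
        refine add_le_add (le_trans b1 ?_) (le_trans b2 ?_)
        · have e1 : 1 / Real.sqrt z = Real.exp (-(69 / 200 * u)) := by
            rw [hz, Real.sqrt_eq_rpow, ← Real.exp_mul, one_div, ← Real.exp_neg]
            congr 1
            ring
          calc C * y * Real.log y ^ 2 / Real.sqrt z = C * y * Real.log y ^ 2 * (1 / Real.sqrt z) := by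
                ring
            _ ≤ C * Real.sqrt x * L ^ 2 * (1 / Real.sqrt z) := by gcongr
            _ = Real.sqrt x * (C * L ^ 2 * Real.exp (-(69 / 200 * u))) := by rw [e1]; ring
        · refine mul_le_mul hyx (Real.exp_le_exp.2 ?_) (Real.exp_pos _).le (by positivity)
          rw [hzth]
          have e1 : 4 * L ^ ((12 : ℝ) / 25) * (Real.log (Real.log z) + C') ≤
              4 * L ^ ((12 : ℝ) / 25) * (Real.log L + C') :=
            mul_le_mul_of_nonneg_left (by linarith) (by positivity)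
          linarith)
    have hset : {m : ℕ | (m : ℝ) ≤ x ∧ EqMem m} = {m : ℕ | (m : ℝ) ≤ x ∧ EqMem m ∧ True} := by
      ext m
      simp
    rw [hset]
    refine le_trans key ?_
    rw [← mul_assoc, mul_comm (2 : ℝ), mul_assoc]
    refine mul_le_mul_of_nonneg_left ?_ (by positivity)
    -- numerical comparison
    have hsu : 1 / 100 * Real.sqrt L ≤ 1 / 100 * u := by linarith
    have hLpow : (L ^ ((12 : ℝ) / 25)) ≥ 1 := Real.one_le_rpow (by linarith) (by norm_num)
    have f1 : 2 * (C * L ^ 2 * Real.exp (-(69 / 200 * u))) ≤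
        (1 / 2) * Real.exp (-(1 / 3) * u) := by
      have g1 : 4 * C * L ^ 2 ≤ Real.exp (1 / 100 * u) := by
        have g2 : 4 * C * L ^ 2 = Real.exp (Real.log (4 * C) + 2 * Real.log L) := by
          rw [Real.exp_add, Real.exp_log (by positivity)]
          congr 1
          rw [show 2 * Real.log L = Real.log (L ^ 2) by rw [Real.log_pow]; norm_num,
            Real.exp_log (by positivity)]
        rw [g2]
        refine Real.exp_le_exp.2 ?_
        refine le_trans ?_ (le_trans h1 hsu)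
        have g3 : L ^ ((12 : ℝ) / 25) * (Real.log L + K) ≥ 1 * (Real.log L + K) := by
          refine mul_le_mul_of_nonneg_right hLpow (by linarith)
        nlinarith
      have g4 : Real.exp (-(69 / 200 * u)) = Real.exp (-(1 / 3) * u) * Real.exp (-(7 / 600 * u)) := by
        rw [← Real.exp_add]
        congr 1
        ring
      rw [g4]
      have g5 : Real.exp (1 / 100 * u) * Real.exp (-(7 / 600 * u)) ≤ 1 := by
        rw [← Real.exp_add]
        have : 1 / 100 * u + -(7 / 600 * u) ≤ 0 := by linarith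
        exact Real.exp_le_one_iff.2 this
      have g6 : 4 * C * L ^ 2 * Real.exp (-(7 / 600 * u)) ≤ 1 :=
        le_trans (mul_le_mul_of_nonneg_right g1 (Real.exp_pos _).le) g5
      calc 2 * (C * L ^ 2 * (Real.exp (-(1 / 3) * u) * Real.exp (-(7 / 600 * u))))
          = (1 / 2) * Real.exp (-(1 / 3) * u) * (4 * C * L ^ 2 * Real.exp (-(7 / 600 * u))) := by ring
        _ ≤ (1 / 2) * Real.exp (-(1 / 3) * u) * 1 :=
            mul_le_mul_of_nonneg_left g6 (by positivity)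
        _ = _ := by ring
    have f2 : 2 * Real.exp (-(8 / 23 * u) + 1 + 4 * L ^ ((12 : ℝ) / 25) * (Real.log L + C')) ≤
        (1 / 2) * Real.exp (-(1 / 3) * u) := by
      have g1 : (4 : ℝ) ≤ Real.exp 2 := by
        have g2 : Real.exp 2 = Real.exp 1 * Real.exp 1 := by rw [← Real.exp_add]; norm_num
        have g3 : (2 : ℝ) ≤ Real.exp 1 := by
          have := Real.add_one_le_exp (1 : ℝ); linarith
        rw [g2]
        nlinarith
      have g4 : 4 * Real.exp (-(8 / 23 * u) + 1 + 4 * L ^ ((12 : ℝ) / 25) * (Real.log L + C')) ≤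
          Real.exp (-(1 / 3) * u) := by
        calc 4 * Real.exp (-(8 / 23 * u) + 1 + 4 * L ^ ((12 : ℝ) / 25) * (Real.log L + C'))
            ≤ Real.exp 2 * Real.exp (-(8 / 23 * u) + 1 + 4 * L ^ ((12 : ℝ) / 25) *
              (Real.log L + C')) := mul_le_mul_of_nonneg_right g1 (Real.exp_pos _).le
          _ = Real.exp (2 + (-(8 / 23 * u) + 1 + 4 * L ^ ((12 : ℝ) / 25) * (Real.log L + C'))) := by
              rw [← Real.exp_add]
          _ ≤ Real.exp (-(1 / 3) * u) := by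
              refine Real.exp_le_exp.2 ?_
              have g5 : 3 + 4 * L ^ ((12 : ℝ) / 25) * (Real.log L + C') ≤ 1 / 100 * u := by
                refine le_trans ?_ (le_trans h1 hsu)
                have g6 : 4 * L ^ ((12 : ℝ) / 25) * (Real.log L + C') ≤
                    K * (L ^ ((12 : ℝ) / 25) * (Real.log L + K)) := by
                  have g7 : L ^ ((12 : ℝ) / 25) * (Real.log L + C') ≤
                      L ^ ((12 : ℝ) / 25) * (Real.log L + K) :=
                    mul_le_mul_of_nonneg_left (by linarith) (by positivity)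
                  have g8 : 0 ≤ L ^ ((12 : ℝ) / 25) * (Real.log L + C') := by
                    have : 0 ≤ Real.log L + C' := by linarith
                    positivity
                  nlinarith
                linarith
              linarith
      linarith
    rw [mul_add]
    linarith
  exact eventually_atTop.1 hev

end Pool.Agent.H88.Bet
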