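import Mathlib

/-!
# Gallagher's larger sieve, and the image of a conic modulo a prime
-/

set_option autoImplicit false

open Finset

namespace Pool.Agent.H88.Bet

theorem sum_log_dvd_le (L : Finset ℕ) (hL : ∀ l ∈ L, l.Prime) {D : ℕ} (hD : D ≠ 0) :
    ∑ l ∈ L.filter (fun l => l ∣ D), Real.log l ≤ Real.log D := by
  have h1 : ∏ l ∈ L.filter (fun l => l ∣ D), l ∣ D :=
    Finset.prod_primes_dvd D (fun l hl => (hL l (mem_filter.1 hl).1).prime)
      (fun l hl => (mem_filter.1 hl).2)
  have h2 := Nat.le_of_dvd (Nat.pos_of_ne_zero hD) h1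
  rw [← Real.log_prod]
  · refine Real.log_le_log ?_ ?_
    · refine Finset.prod_pos (fun l hl => ?_)
      exact_mod_cast (hL l (mem_filter.1 hl).1).pos
    · rw [← Nat.cast_prod]
      exact Nat.cast_le.2 h2
  · intro l hl
    exact_mod_cast (hL l (mem_filter.1 hl).1).ne_zero

theorem pairs_ge (A : Finset ℕ) (l : ℕ) :
    ((A.card : ℝ)) ^ 2 ≤ ((A.image (fun a : ℕ => (a : ZMod l))).card : ℝ) *
      (((A ×ˢ A).filter (fun x => (x.1 : ZMod l) = x.2)).card : ℝ) := by
  have h1 : A.card = ∑ r ∈ A.image (fun a : ℕ => (a : ZMod l)),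
      (A.filter (fun a : ℕ => (a : ZMod l) = r)).card := Finset.card_eq_sum_card_image _ _
  have h2 : ((A ×ˢ A).filter (fun x => (x.1 : ZMod l) = x.2)).card =
      ∑ r ∈ A.image (fun a : ℕ => (a : ZMod l)),
        (A.filter (fun a : ℕ => (a : ZMod l) = r)).card ^ 2 := by
    have h3 : ((A ×ˢ A).filter (fun x => (x.1 : ZMod l) = x.2)).card =
        ∑ a ∈ A, (A.filter (fun b : ℕ => (b : ZMod l) = (a : ZMod l))).card := by
      rw [Finset.card_filter, Finset.sum_product]
      refine Finset.sum_congr rfl (fun a _ => ?_)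
      rw [Finset.card_filter]
      refine Finset.sum_congr rfl (fun b _ => ?_)
      simp only [eq_comm]
    rw [h3, Finset.sum_comp (fun r => (A.filter (fun b : ℕ => (b : ZMod l) = r)).card)
      (fun a : ℕ => (a : ZMod l))]
    refine Finset.sum_congr rfl (fun r _ => ?_)
    rw [smul_eq_mul, sq]
  rw [h2]
  push_cast
  have h4 := sq_sum_le_card_mul_sum_sq (s := A.image (fun a : ℕ => (a : ZMod l)))
    (f := fun r => ((A.filter (fun a : ℕ => (a : ZMod l) = r)).card : ℝ))
  refine le_trans (le_of_eq ?_) h4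
  conv_lhs => rw [h1]
  push_cast
  rfl

theorem larger_sieve (A L : Finset ℕ) (hL : ∀ l ∈ L, l.Prime) (ν : ℕ → ℝ)
    (hν : ∀ l ∈ L, 0 < ν l)
    (hA : ∀ l ∈ L, ((A.image (fun a : ℕ => (a : ZMod l))).card : ℝ) ≤ ν l) (N : ℝ) (hN : 1 ≤ N)
    (hdiff : ∀ a ∈ A, ∀ b ∈ A, a < b → ((b - a : ℕ) : ℝ) ≤ N) :
    (A.card : ℝ) * (∑ l ∈ L, Real.log l / ν l - Real.log N) ≤ ∑ l ∈ L, Real.log l := by
  rcases Finset.eq_empty_or_nonempty A with hA0 | hA0
  · subst hA0
    simp only [card_empty, Nat.cast_zero, zero_mul]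
    exact sum_nonneg (fun l hl => Real.log_nonneg (by exact_mod_cast (hL l hl).one_lt.le))
  have hc : (0 : ℝ) < A.card := by exact_mod_cast hA0.card_pos
  have hlogl : ∀ l ∈ L, 0 ≤ Real.log (l : ℝ) := fun l hl =>
    Real.log_nonneg (by exact_mod_cast (hL l hl).one_lt.le)
  have hlogN : 0 ≤ Real.log N := Real.log_nonneg hN
  -- lower bound
  have h1 : (A.card : ℝ) ^ 2 * ∑ l ∈ L, Real.log l / ν l ≤
      ∑ l ∈ L, Real.log l * (((A ×ˢ A).filter (fun x => (x.1 : ZMod l) = x.2)).card : ℝ) := by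
    rw [mul_sum]
    refine sum_le_sum (fun l hl => ?_)
    have h2 := pairs_ge A l
    have h3 : (A.card : ℝ) ^ 2 ≤ ν l *
        (((A ×ˢ A).filter (fun x => (x.1 : ZMod l) = x.2)).card : ℝ) :=
      le_trans h2 (mul_le_mul_of_nonneg_right (hA l hl) (by positivity))
    have h4 : (A.card : ℝ) ^ 2 / ν l ≤
        (((A ×ˢ A).filter (fun x => (x.1 : ZMod l) = x.2)).card : ℝ) := by
      rw [div_le_iff₀ (hν l hl), mul_comm]
      exact h3
    calc (A.card : ℝ) ^ 2 * (Real.log l / ν l) = Real.log l * ((A.card : ℝ) ^ 2 / ν l) := by ring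
      _ ≤ _ := mul_le_mul_of_nonneg_left h4 (hlogl l hl)
  -- upper bound
  have h5 : ∑ l ∈ L, Real.log l * (((A ×ˢ A).filter (fun x => (x.1 : ZMod l) = x.2)).card : ℝ) =
      ∑ x ∈ A ×ˢ A, ∑ l ∈ L.filter (fun l : ℕ => (x.1 : ZMod l) = x.2), Real.log l := by
    have e1 : ∀ l ∈ L, Real.log l * (((A ×ˢ A).filter (fun x => (x.1 : ZMod l) = x.2)).card : ℝ) =
        ∑ x ∈ A ×ˢ A, if ((x.1 : ZMod l) = x.2) then Real.log l else 0 := by
      intro l _
      rw [← Finset.sum_filter, Finset.sum_const, nsmul_eq_mul, mul_comm]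
    rw [sum_congr rfl e1, sum_comm]
    refine sum_congr rfl (fun x _ => ?_)
    rw [Finset.sum_filter]
  have h6 : ∑ x ∈ A ×ˢ A, ∑ l ∈ L.filter (fun l : ℕ => (x.1 : ZMod l) = x.2), Real.log l ≤
      ∑ x ∈ A ×ˢ A, (Real.log N + if x.1 = x.2 then ∑ l ∈ L, Real.log l else 0) := by
    refine sum_le_sum (fun x hx => ?_)
    obtain ⟨hx1, hx2⟩ := mem_product.1 hx
    by_cases hxx : x.1 = x.2
    · rw [if_pos hxx]
      have : ∑ l ∈ L.filter (fun l : ℕ => (x.1 : ZMod l) = x.2), Real.log l ≤
          ∑ l ∈ L, Real.log l :=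
        sum_le_sum_of_subset_of_nonneg (filter_subset _ _) (fun l hl _ => hlogl l hl)
      linarith
    · rw [if_neg hxx, add_zero]
      have key : ∀ a ∈ A, ∀ b ∈ A, a < b →
          ∑ l ∈ L.filter (fun l : ℕ => (a : ZMod l) = b), Real.log l ≤ Real.log N := by
        intro a ha b hb hab
        have hD : b - a ≠ 0 := by omega
        have e1 : L.filter (fun l : ℕ => (a : ZMod l) = b) ⊆ L.filter (fun l => l ∣ b - a) := by
          intro l hl
          rw [mem_filter] at hl ⊢
          refine ⟨hl.1, ?_⟩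
          have := (ZMod.natCast_eq_natCast_iff a b l).1 hl.2
          exact (Nat.modEq_iff_dvd' hab.le).1 this
        refine le_trans (sum_le_sum_of_subset_of_nonneg e1
          (fun l hl _ => hlogl l (mem_filter.1 hl).1)) ?_
        refine le_trans (sum_log_dvd_le L hL hD) ?_
        refine Real.log_le_log ?_ (hdiff a ha b hb hab)
        exact_mod_cast Nat.pos_of_ne_zero hD
      rcases lt_or_gt_of_ne hxx with h | h
      · exact key _ hx1 _ hx2 h
      · have := key _ hx2 _ hx1 h
        refine le_trans (le_of_eq ?_) this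
        refine sum_congr ?_ (fun _ _ => rfl)
        ext l
        simp only [mem_filter, eq_comm]
  have h7 : ∑ x ∈ A ×ˢ A, (Real.log N + if x.1 = x.2 then ∑ l ∈ L, Real.log l else 0) =
      (A.card : ℝ) ^ 2 * Real.log N + A.card * ∑ l ∈ L, Real.log l := by
    rw [sum_add_distrib, sum_const, nsmul_eq_mul, card_product]
    congr 1
    · push_cast
      ring
    · rw [sum_product]
      have : ∀ a ∈ A, ∑ b ∈ A, (if a = b then ∑ l ∈ L, Real.log (l : ℝ) else 0) =
          ∑ l ∈ L, Real.log (l : ℝ) := by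
        intro a ha
        rw [Finset.sum_ite_eq, if_pos ha]
      rw [sum_congr rfl this, sum_const, nsmul_eq_mul]
  have h8 : (A.card : ℝ) ^ 2 * ∑ l ∈ L, Real.log l / ν l ≤
      (A.card : ℝ) ^ 2 * Real.log N + A.card * ∑ l ∈ L, Real.log l := by
    rw [← h7]
    refine le_trans h1 ?_
    rw [h5]
    exact h6
  have h9 : (A.card : ℝ) * ((A.card : ℝ) * (∑ l ∈ L, Real.log l / ν l - Real.log N)) ≤
      A.card * ∑ l ∈ L, Real.log l := by
    nlinarith
  exact le_of_mul_le_mul_left h9 hc

/-- points of an affine conic over `ZMod l` -/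
theorem conic_card {l : ℕ} [Fact l.Prime] (δ A T B : ZMod l) (hδ : δ ≠ 0)
    (hΔ : T ^ 2 - 4 * A * B ≠ 0) :
    (univ.filter (fun x : ZMod l × ZMod l => δ * x.2 ^ 2 = A * x.1 ^ 2 + T * x.1 + B)).card
      ≤ l + 2 := by
  set C := univ.filter (fun x : ZMod l × ZMod l => δ * x.2 ^ 2 = A * x.1 ^ 2 + T * x.1 + B) with hC
  rcases Finset.eq_empty_or_nonempty C with h0 | ⟨⟨r0, s0⟩, h0⟩
  · rw [h0]
    simp
  have h0' : δ * s0 ^ 2 = A * r0 ^ 2 + T * r0 + B := (mem_filter.1 h0).2
  -- slopes
  have hinj : ((C \ {(r0, s0), (r0, -s0)}).image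
      (fun x : ZMod l × ZMod l => (x.2 - s0) / (x.1 - r0))).card =
      (C \ {(r0, s0), (r0, -s0)}).card := by
    refine Finset.card_image_of_injOn ?_
    have key : ∀ x ∈ C \ {(r0, s0), (r0, -s0)}, x.1 ≠ r0 ∧
        (δ * ((x.2 - s0) / (x.1 - r0)) ^ 2 - A) * x.1 = A * r0 + T +
          δ * ((x.2 - s0) / (x.1 - r0)) ^ 2 * r0 - 2 * δ * ((x.2 - s0) / (x.1 - r0)) * s0 ∧
        x.2 = s0 + ((x.2 - s0) / (x.1 - r0)) * (x.1 - r0) := by
      rintro ⟨r, s⟩ hx
      rw [mem_sdiff, mem_insert, mem_singleton, not_or] at hx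
      obtain ⟨hxC, hx1, hx2⟩ := hx
      have hx' : δ * s ^ 2 = A * r ^ 2 + T * r + B := (mem_filter.1 hxC).2
      have hr : r ≠ r0 := by
        rintro rfl
        have e1 : δ * (s ^ 2 - s0 ^ 2) = 0 := by linear_combination hx' - h0'
        have e2 : (s - s0) * (s + s0) = 0 := by
          rcases mul_eq_zero.1 e1 with h | h
          · exact absurd h hδ
          · linear_combination h
        rcases mul_eq_zero.1 e2 with h | h
        · exact hx1 (by rw [sub_eq_zero.1 h])
        · exact hx2 (by rw [eq_neg_of_add_eq_zero_left h])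
      have hr' : r - r0 ≠ 0 := sub_ne_zero.2 hr
      refine ⟨hr, ?_, ?_⟩
      · show (δ * ((s - s0) / (r - r0)) ^ 2 - A) * r = A * r0 + T +
          δ * ((s - s0) / (r - r0)) ^ 2 * r0 - 2 * δ * ((s - s0) / (r - r0)) * s0
        have ht : s - s0 = ((s - s0) / (r - r0)) * (r - r0) := by field_simp
        set t := (s - s0) / (r - r0) with htdef
        have hs : s = s0 + t * (r - r0) := by linear_combination ht
        have e3 : (r - r0) * (δ * t * (s + s0) - A * (r + r0) - T) = 0 := by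
          linear_combination hx' - h0' - δ * (s + s0) * ht
        have e4 : δ * t * (s + s0) - A * (r + r0) - T = 0 := by
          rcases mul_eq_zero.1 e3 with h | h
          · exact absurd h hr'
          · exact h
        rw [hs] at e4
        linear_combination e4
      · show s = s0 + ((s - s0) / (r - r0)) * (r - r0)
        field_simp
        ring
    intro x hx x' hx' heq
    obtain ⟨h1, h2, h3⟩ := key x hx
    obtain ⟨h1', h2', h3'⟩ := key x' hx'
    simp only at heq
    rw [← heq] at h2' h3'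
    set t := (x.2 - s0) / (x.1 - r0) with htdef
    have hne : δ * t ^ 2 - A ≠ 0 := by
      intro hz
      apply hΔ
      rw [hz, zero_mul] at h2
      have e1 : 2 * A * r0 + T = 2 * δ * t * s0 := by linear_combination -h2 - r0 * hz
      have e2 : (2 * A * r0 + T) ^ 2 = 4 * A * (A * r0 ^ 2 + T * r0 + B) := by
        rw [e1, ← h0']
        linear_combination 4 * δ * s0 ^ 2 * hz
      linear_combination e2
    have e5 : x.1 = x'.1 := by
      have : (δ * t ^ 2 - A) * x.1 = (δ * t ^ 2 - A) * x'.1 := by rw [h2, h2']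
      exact mul_left_cancel₀ hne this
    have e6 : x.2 = x'.2 := by rw [h3, h3', e5]
    exact Prod.ext e5 e6
  have h4 : (C \ {(r0, s0), (r0, -s0)}).card ≤ l := by
    rw [← hinj]
    refine le_trans (Finset.card_le_univ _) ?_
    rw [ZMod.card]
  have h5 : C.card ≤ (C \ {(r0, s0), (r0, -s0)}).card +
      ({(r0, s0), (r0, -s0)} : Finset (ZMod l × ZMod l)).card := by
    rw [← Finset.sdiff_union_inter C {(r0, s0), (r0, -s0)}] 
    refine le_trans (Finset.card_union_le _ _) ?_
    refine Nat.add_le_add ?_ (Finset.card_le_card Finset.inter_subset_right)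
    rw [Finset.sdiff_union_inter]
  have h6 : ({(r0, s0), (r0, -s0)} : Finset (ZMod l × ZMod l)).card ≤ 2 := Finset.card_le_two
  omega

theorem conic_image {l : ℕ} [Fact l.Prime] (hl2 : l ≠ 2) (δ A T B : ZMod l) (hδ : δ ≠ 0)
    (hA : A ≠ 0) (hΔ : T ^ 2 - 4 * A * B ≠ 0) :
    2 * (univ.filter (fun r : ZMod l => ∃ s, δ * s ^ 2 = A * r ^ 2 + T * r + B)).card ≤ l + 6 := by
  set C := univ.filter (fun x : ZMod l × ZMod l => δ * x.2 ^ 2 = A * x.1 ^ 2 + T * x.1 + B) with hC
  set R := univ.filter (fun r : ZMod l => ∃ s, δ * s ^ 2 = A * r ^ 2 + T * r + B) with hR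
  have hCc : C.card ≤ l + 2 := conic_card δ A T B hδ hΔ
  have htwo : (2 : ZMod l) ≠ 0 := by
    intro h
    have h1 : ((2 : ℕ) : ZMod l) = 0 := by exact_mod_cast h
    rw [ZMod.natCast_eq_zero_iff] at h1
    exact hl2 ((Nat.prime_dvd_prime_iff_eq (Fact.out) Nat.prime_two).1 h1)
  have h1 : (R.filter (fun r => A * r ^ 2 + T * r + B = 0)).card ≤ 2 := by
    rcases Finset.eq_empty_or_nonempty (R.filter (fun r => A * r ^ 2 + T * r + B = 0)) with
      h0 | ⟨r1, h0⟩
    · rw [h0]
      simp
    · have hr1 := (mem_filter.1 h0).2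
      refine le_trans (Finset.card_le_card (t := {r1, -T / A - r1}) ?_) Finset.card_le_two
      intro r hr
      have hr2 := (mem_filter.1 hr).2
      rw [mem_insert, mem_singleton]
      have e1 : (r - r1) * (A * (r + r1) + T) = 0 := by linear_combination hr2 - hr1
      rcases mul_eq_zero.1 e1 with h | h
      · left
        exact sub_eq_zero.1 h
      · right
        field_simp
        linear_combination h
  have h2 : 2 * (R.filter (fun r => ¬ (A * r ^ 2 + T * r + B = 0))).card ≤ C.card := by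
    have e1 : C.card = ∑ r : ZMod l, (C.filter (fun x => x.1 = r)).card :=
      Finset.card_eq_sum_card_fiberwise (fun x _ => mem_coe.2 (mem_univ x.1))
    rw [e1]
    have e2 : ∑ r ∈ R.filter (fun r => ¬ (A * r ^ 2 + T * r + B = 0)), 2 ≤
        ∑ r : ZMod l, (C.filter (fun x => x.1 = r)).card := by
      refine le_trans (sum_le_sum (g := fun r => (C.filter (fun x => x.1 = r)).card) ?_)
        (sum_le_sum_of_subset (subset_univ _))
      intro r hr
      obtain ⟨hrR, hr0⟩ := mem_filter.1 hr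
      obtain ⟨s, hs⟩ := (mem_filter.1 hrR).2
      have hs0 : s ≠ 0 := by
        rintro rfl
        apply hr0
        rw [← hs]
        ring
      have hne : (r, s) ≠ (r, -s) := by
        intro h
        have h3 : s = -s := (Prod.ext_iff.1 h).2
        have h4 : 2 * s = 0 := by linear_combination h3
        rcases mul_eq_zero.1 h4 with h | h
        · exact htwo h
        · exact hs0 h
      have h5 : ({(r, s), (r, -s)} : Finset (ZMod l × ZMod l)) ⊆ C.filter (fun x => x.1 = r) := by
        intro x hx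
        rw [mem_insert, mem_singleton] at hx
        rcases hx with rfl | rfl
        · exact mem_filter.2 ⟨mem_filter.2 ⟨mem_univ _, hs⟩, rfl⟩
        · refine mem_filter.2 ⟨mem_filter.2 ⟨mem_univ _, ?_⟩, rfl⟩
          show δ * (-s) ^ 2 = A * r ^ 2 + T * r + B
          rw [neg_sq]
          exact hs
      have h6 := Finset.card_le_card h5
      rw [Finset.card_pair hne] at h6
      exact h6
    rw [sum_const, smul_eq_mul, mul_comm] at e2
    exact e2
  have h3 : R.card = (R.filter (fun r => A * r ^ 2 + T * r + B = 0)).card +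
      (R.filter (fun r => ¬ (A * r ^ 2 + T * r + B = 0))).card :=
    (Finset.card_filter_add_card_filter_not _).symm
  omega

end Pool.Agent.H88.Bet
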